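import Pool.Agent.Qdec.Def

/-!
# Slopes, and perturbation of the forms (helper60)  (module)

COMPLETE PAPER PROOFS.

`slopes`.  Let `(x,t,m)` be the point of `Good`; all `val A B w i x t m > 0` by `Fr.pos`.  With `v i` for these values,
`w 0 v 2 + w 2 v 0 = x (w 2 A 0 - w 0 A 2) - t (u1 B w) > 0` and `w 2 A 0 - w 0 A 2 < 7 (u1 B w)` (`Fr.right`), so
`(7 x - t) u1 > 0` (use `x ≥ 1`), and `7 x - t > 0` as `|t| ≤ 6 x`: `u1 > 0`.  Similarly
`w 0 v 1 + w 1 v 0 = x (w 1 A 0 - w 0 A 1) + t (u2 B w) > 0` and `w 1 A 0 - w 0 A 1 < 7 (u2 B w)` (`Fr.left`), so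
`(7 x + t) u2 > 0`: `u2 > 0`.  `w 0 * u0 = w 1 * u1 + w 2 * u2` (`ring`), so `u0 > 0`.
`u0 v 0 + u1 v 1 + u2 v 2 = pp A B w * x` (`ring` after unfolding; the `t` and `m` terms cancel), so `pp > 0`.

`close`.  Put `ea i = D A i - w i a i`, `eb i = D B i - w i b i`; `16 N |ea i| < w i`, so `16 |ea i| < w i` and
`16 |ea i x| < w i`, `16 |eb i t| < 7 w i` for `(x,t,m)` in the box (`|x| ≤ N`, `|t| ≤ 7 N`).
* `pos`/`neg`: `D * val A B w i x t m = w i * val a b (fun _ => D) i x t m + sg i * (ea i x + eb i t)`; the integer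
`val a b D i x t m` is `≥ 1` (resp. `≤ -1`), `w i > 0`, and the error is less than `w i` in absolute value.
* `absA`: `|a 0| ≤ 2 D - 1`, so `D |A 0| ≤ w 0 (2 D - 1) + |ea 0| < 2 D w 0`.  `absB` in the same way.
* `right`: the hypothesis says `(a 0 + 7 b 0) D < (a 2 + 7 b 2) D`, so `a 0 + 7 b 0 + 1 ≤ a 2 + 7 b 2`.  Multiply the
claim by `D`: `D (A 0 + 7 B 0) w 2 = w 0 w 2 (a 0 + 7 b 0) + (ea 0 + 7 eb 0) w 2`,
`D (A 2 + 7 B 2) w 0 = w 0 w 2 (a 2 + 7 b 2) + (ea 2 + 7 eb 2) w 0`, and the errors are each less than `w 0 w 2 / 2`.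
* `left`: the same with `a 0 - 7 b 0 + 1 ≤ a 1 - 7 b 1`.
-/

set_option autoImplicit false

namespace Pool.Agent.Qdec

theorem slopes (N : ℕ) (P : Fin 3 → ℤ → ℤ → ℤ → Prop) (A B w : Fin 3 → ℤ)
    (h : Fr N P A B w) (hg : Good N P) :
    0 < u0 B w ∧ 0 < u1 B w ∧ 0 < u2 B w ∧ 0 < pp A B w := by
  obtain ⟨x, t, m, hb, ht, hP⟩ := hg
  have hx : 1 ≤ x := hb.1
  have ht' := abs_le.1 ht
  have v0 := h.pos 0 x t m hb (hP 0)
  have v1 := h.pos 1 x t m hb (hP 1)
  have v2 := h.pos 2 x t m hb (hP 2)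
  have w0 := h.wpos 0
  have w1 := h.wpos 1
  have w2 := h.wpos 2
  have hr := h.right
  have hl := h.left
  have s0 : sg 0 = 1 := rfl
  have s1 : sg 1 = -1 := rfl
  have s2 : sg 2 = -1 := rfl
  unfold val at v0 v1 v2
  rw [s0] at v0
  rw [s1] at v1
  rw [s2] at v2
  have h1 : 0 < (7 * x - t) * u1 B w := by
    have e1 := mul_pos w0 v2
    have e2 := mul_pos w2 v0
    have e3 : 0 < x * (7 * u1 B w - (w 2 * A 0 - w 0 * A 2)) := by
      refine mul_pos (by linarith) ?_
      unfold u1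
      linarith
    unfold u1 at e3 ⊢
    nlinarith
  have hu1 : 0 < u1 B w := by
    have : 0 < 7 * x - t := by linarith
    exact (mul_pos_iff_of_pos_left this).1 h1
  have h2 : 0 < (7 * x + t) * u2 B w := by
    have e1 := mul_pos w0 v1
    have e2 := mul_pos w1 v0
    have e3 : 0 < x * (7 * u2 B w - (w 1 * A 0 - w 0 * A 1)) := by
      refine mul_pos (by linarith) ?_
      unfold u2
      linarith
    unfold u2 at e3 ⊢
    nlinarith
  have hu2 : 0 < u2 B w := by
    have : 0 < 7 * x + t := by linarith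
    exact (mul_pos_iff_of_pos_left this).1 h2
  have hu0 : 0 < u0 B w := by
    have e : w 0 * u0 B w = w 1 * u1 B w + w 2 * u2 B w := by
      unfold u0 u1 u2
      ring
    have : 0 < w 0 * u0 B w := by
      rw [e]
      positivity
    exact (mul_pos_iff_of_pos_left w0).1 this
  have hpp : 0 < pp A B w := by
    have e : pp A B w * x = u0 B w * (1 * (A 0 * x + B 0 * t - w 0 * m)) +
        u1 B w * (-1 * (A 1 * x + B 1 * t - w 1 * m)) +
        u2 B w * (-1 * (A 2 * x + B 2 * t - w 2 * m)) := by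
      unfold pp u0 u1 u2
      ring
    have : 0 < pp A B w * x := by
      rw [e]
      positivity
    exact (mul_pos_iff_of_pos_right (by linarith)).1 this
  exact ⟨hu0, hu1, hu2, hpp⟩

private theorem err_lt {N : ℕ} {e e' W x t : ℤ} (hN : 1 ≤ N) (he : 16 * N * |e| < W)
    (he' : 16 * N * |e'| < W) (hx0 : 1 ≤ x) (hx : x ≤ N) (ht : |t| ≤ 7 * x) (s : ℤ)
    (hs : s = 1 ∨ s = -1) : |s * (e * x + e' * t)| < W := by
  have hN' : (1 : ℤ) ≤ (N : ℤ) := by exact_mod_cast hN
  have h1 : |s * (e * x + e' * t)| = |e * x + e' * t| := by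
    rcases hs with h | h <;> rw [h]
    · rw [one_mul]
    · rw [neg_one_mul, abs_neg]
  rw [h1]
  have h2 : |e * x + e' * t| ≤ |e| * |x| + |e'| * |t| := by
    refine (abs_add_le _ _).trans ?_
    rw [abs_mul, abs_mul]
  have h3 : |x| ≤ (N : ℤ) := by
    rw [abs_of_pos (by linarith)]
    exact hx
  have h4 : |t| ≤ 7 * (N : ℤ) := ht.trans (by linarith)
  have h5 : |e| * |x| ≤ |e| * N := mul_le_mul_of_nonneg_left h3 (abs_nonneg _)
  have h6 : |e'| * |t| ≤ |e'| * (7 * N) := mul_le_mul_of_nonneg_left h4 (abs_nonneg _)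
  have h7 := abs_nonneg e
  have h8 := abs_nonneg e'
  have h9 : 0 ≤ (N : ℤ) * |e| := by positivity
  have h10 : 0 ≤ (N : ℤ) * |e'| := by positivity
  nlinarith

private theorem abs_small {N : ℕ} {e W : ℤ} (hN : 1 ≤ N) (he : 16 * N * |e| < W) :
    16 * |e| < W := by
  have hN' : (1 : ℤ) ≤ (N : ℤ) := by exact_mod_cast hN
  have h7 := abs_nonneg e
  nlinarith [mul_le_mul_of_nonneg_right hN' h7]

private theorem abs_two {A a D W : ℤ} (hD : 0 < D) (hW : 0 < W)
    (he : 16 * |D * A - W * a| < W) (ha : |a| < 2 * D) : |A| < 2 * W := by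
  have h1 := abs_lt.1 ha
  have h2 : |D * A - W * a| < W := by
    have := abs_nonneg (D * A - W * a)
    linarith
  have h3 := abs_lt.1 h2
  rw [abs_lt]
  constructor
  · by_contra hc
    push Not at hc
    have h4 : D * A ≤ D * (-(2 * W)) := mul_le_mul_of_nonneg_left hc hD.le
    have h5 : W * (-(2 * D) + 1) ≤ W * a := mul_le_mul_of_nonneg_left (by linarith) hW.le
    nlinarith
  · by_contra hc
    push Not at hc
    have h4 : D * (2 * W) ≤ D * A := mul_le_mul_of_nonneg_left hc hD.le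
    have h5 : W * a ≤ W * (2 * D - 1) := mul_le_mul_of_nonneg_left (by linarith) hW.le
    nlinarith

/-- the comparison of two slopes: `s = 7` or `s = -7`. -/
private theorem slope_lt {A B A' B' a b a' b' D W W' s : ℤ} (hs : s = 7 ∨ s = -7) (hD : 0 < D)
    (hW : 0 < W) (hW' : 0 < W')
    (h1 : 16 * |D * A - W * a| < W) (h2 : 16 * |D * B - W * b| < W)
    (h3 : 16 * |D * A' - W' * a'| < W') (h4 : 16 * |D * B' - W' * b'| < W')
    (h : (a + s * b) * D < (a' + s * b') * D) :
    (A + s * B) * W' < (A' + s * B') * W := by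
  have h0 : a + s * b + 1 ≤ a' + s * b' := by
    have := lt_of_mul_lt_mul_right h hD.le
    linarith
  -- the total errors
  have k1 : 2 * |(D * A - W * a) + s * (D * B - W * b)| < W := by
    have e1 : |(D * A - W * a) + s * (D * B - W * b)| ≤
        |D * A - W * a| + 7 * |D * B - W * b| := by
      refine (abs_add_le _ _).trans ?_
      rw [abs_mul]
      rcases hs with h | h <;> rw [h] <;> norm_num
    linarith
  have k2 : 2 * |(D * A' - W' * a') + s * (D * B' - W' * b')| < W' := by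
    have e1 : |(D * A' - W' * a') + s * (D * B' - W' * b')| ≤
        |D * A' - W' * a'| + 7 * |D * B' - W' * b'| := by
      refine (abs_add_le _ _).trans ?_
      rw [abs_mul]
      rcases hs with h | h <;> rw [h] <;> norm_num
    linarith
  have m1 : 2 * ((D * A - W * a) + s * (D * B - W * b)) < W := by
    linarith [le_abs_self ((D * A - W * a) + s * (D * B - W * b))]
  have m2 : -W' < 2 * ((D * A' - W' * a') + s * (D * B' - W' * b')) := by
    linarith [neg_abs_le ((D * A' - W' * a') + s * (D * B' - W' * b'))]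
  have n1 := mul_lt_mul_of_pos_right m1 hW'
  have n2 := mul_lt_mul_of_pos_right m2 hW
  have n3 : W * W' * (a + s * b + 1) ≤ W * W' * (a' + s * b') :=
    mul_le_mul_of_nonneg_left h0 (by positivity)
  have key : D * ((A + s * B) * W') < D * ((A' + s * B') * W) := by nlinarith
  exact lt_of_mul_lt_mul_left key hD.le

theorem close (N : ℕ) (hN : 1 ≤ N) (P : Fin 3 → ℤ → ℤ → ℤ → Prop) (a b : Fin 3 → ℤ) (D : ℤ)
    (h : Fr N P a b (fun _ => D)) (A B w : Fin 3 → ℤ) (hw : ∀ i, 0 < w i)
    (hA : ∀ i, 16 * N * |D * A i - w i * a i| < w i)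
    (hB : ∀ i, 16 * N * |D * B i - w i * b i| < w i) : Fr N P A B w := by
  have hD : 0 < D := h.wpos 0
  have hsg : ∀ i, sg i = 1 ∨ sg i = -1 := by
    intro i
    unfold sg
    split_ifs
    · exact Or.inl rfl
    · exact Or.inr rfl
  have key : ∀ i x t m, D * val A B w i x t m = w i * val a b (fun _ => D) i x t m +
      sg i * ((D * A i - w i * a i) * x + (D * B i - w i * b i) * t) := by
    intro i x t m
    unfold val
    ring
  have herr : ∀ i x t m, InBox N x t m →
      |sg i * ((D * A i - w i * a i) * x + (D * B i - w i * b i) * t)| < w i :=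
    fun i x t m hb => err_lt hN (hA i) (hB i) hb.1 hb.2.1 hb.2.2.1 _ (hsg i)
  refine ⟨hw, ?_, ?_, ?_, ?_, ?_, ?_⟩
  · intro i x t m hb hP
    have h1 := h.pos i x t m hb hP
    have h2 := abs_lt.1 (herr i x t m hb)
    have h3 : w i * 1 ≤ w i * val a b (fun _ => D) i x t m :=
      mul_le_mul_of_nonneg_left h1 (hw i).le
    have h4 : 0 < D * val A B w i x t m := by
      rw [key]
      linarith
    exact (mul_pos_iff_of_pos_left hD).1 h4
  · intro i x t m hb hP
    have h1 := h.neg i x t m hb hP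
    have h2 := abs_lt.1 (herr i x t m hb)
    have h3 : w i * val a b (fun _ => D) i x t m ≤ w i * (-1) :=
      mul_le_mul_of_nonneg_left (by linarith) (hw i).le
    have h4 : D * val A B w i x t m < 0 := by
      rw [key]
      linarith
    by_contra hc
    push Not at hc
    have := mul_nonneg hD.le hc
    linarith
  · exact abs_two hD (hw 0) (abs_small hN (hA 0)) h.absA
  · exact abs_two hD (hw 0) (abs_small hN (hB 0)) h.absB
  · exact slope_lt (Or.inl rfl) hD (hw 0) (hw 2) (abs_small hN (hA 0)) (abs_small hN (hB 0))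
      (abs_small hN (hA 2)) (abs_small hN (hB 2)) h.right
  · have h1 := slope_lt (s := -7) (Or.inr rfl) hD (hw 0) (hw 1) (abs_small hN (hA 0))
      (abs_small hN (hB 0)) (abs_small hN (hA 1)) (abs_small hN (hB 1)) (by
        have := h.left
        linarith)
    linarith

end Pool.Agent.Qdec
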