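import Pool.Agent.Qdec.Def

/-!
# The check is primitive recursive (helper60)  (module)

COMPLETE PAPER PROOF.  Mathlib (`Computability/Primrec/List.lean`) has `PrimrecRel.exists_mem_list`,
`PrimrecRel.forall_mem_list` (with a parameter in any `Primcodable` type) and `Primrec.list_range`: they give a private
lemma: if `R : ℕ → β → Prop` is a `PrimrecRel` and `f : β → ℕ` is `Primrec`, then `fun y => ∃ x < f y, R x y` and
`fun y => ∀ x < f y, R x y` are `PrimrecPred`.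
* `Gen a b c m` for `0 < a, b, c` is equivalent to `∃ i < m + 1, ∃ j < m + 1, ∃ k < m + 1, m = a * i + b * j + c * k`;
in the same way `Gen2 a b m` for `0 < a, b`.  So replace (`PrimrecPred.of_eq`) the check by the one with these bounded versions (inside the
conjunction `0 < a`, `0 < b`, `0 < c` are available).
* `Nat.gcd (Nat.gcd a b) c = 1` for `0 < a` is equivalent to
`∀ d < a + 1, a % d = 0 → b % d = 0 → c % d = 0 → d = 1` (`Primrec.nat_mod`; `d = 0`: `a % 0 = a ≠ 0`).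
* `x ∉ l` is `¬ ∃ y ∈ l, y = x`: `PrimrecRel.exists_mem_list` with `Primrec.eq`.
* `mx` is primitive recursive: `List.sum` is a `foldr` (`Primrec.list_foldr`).
* everything is then a combination of `PrimrecPred.and`, `.not`, `.or`, `.comp`, `Primrec.nat_mul`, `Primrec.nat_add`, `Primrec.nat_lt`,
`Primrec.eq`; `p → q` is `¬ p ∨ q`, `p ↔ q` is `(¬ p ∨ q) ∧ (¬ q ∨ p)`; it is convenient to collect the variables in a tuple such as
`(((l, a), b), c), p`.
-/

set_option autoImplicit false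

namespace Pool.Agent.Qdec

/-- an upper bound for the entries of a list. -/
def mx (l : List ℕ) : ℕ := l.sum + 1

/-- the finite check for the set `{x | x ∉ l}`. -/
def Check (B n : ℕ) (l : List ℕ) : Prop :=
  ∃ a < B, ∃ b < B, ∃ c < B, ∃ p < B, 0 < a ∧ 0 < b ∧ 0 < c ∧ 0 < p ∧
    Nat.gcd (Nat.gcd a b) c = 1 ∧ ¬ Gen2 b c a ∧ ¬ Gen2 a c b ∧ ¬ Gen2 a b c ∧
    ∀ x < 2 * n + 2, (x ∉ l ↔ Gen a b c (p * x))

private theorem exB {β : Type*} [Primcodable β] {R : ℕ → β → Prop} {f : β → ℕ} (hR : PrimrecRel R)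
    (hf : Primrec f) : PrimrecPred fun y => ∃ x < f y, R x y :=
  ((hR.exists_mem_list).comp (Primrec.list_range.comp hf) Primrec.id).of_eq (by simp)

private theorem allB {β : Type*} [Primcodable β] {R : ℕ → β → Prop} {f : β → ℕ} (hR : PrimrecRel R)
    (hf : Primrec f) : PrimrecPred fun y => ∀ x < f y, R x y :=
  ((hR.forall_mem_list).comp (Primrec.list_range.comp hf) Primrec.id).of_eq (by simp)

private theorem impB {β : Type*} [Primcodable β] {p q : β → Prop} (hp : PrimrecPred p)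
    (hq : PrimrecPred q) : PrimrecPred fun y => p y → q y :=
  (hp.not.or hq).of_eq fun y => by tauto

private theorem iffB {β : Type*} [Primcodable β] {p q : β → Prop} (hp : PrimrecPred p)
    (hq : PrimrecPred q) : PrimrecPred fun y => (p y ↔ q y) :=
  ((impB hp hq).and (impB hq hp)).of_eq fun y => by tauto

private theorem memB {β : Type*} [Primcodable β] {X : β → ℕ} {L : β → List ℕ} (hX : Primrec X)
    (hL : Primrec L) : PrimrecPred fun y => X y ∈ L y :=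
  (((Primrec.eq (α := ℕ)).exists_mem_list).comp hL hX).of_eq (by simp)

private theorem genB {β : Type*} [Primcodable β] {A B C M : β → ℕ} (hA : Primrec A)
    (hB : Primrec B) (hC : Primrec C) (hM : Primrec M) : PrimrecPred fun y =>
      ∃ i < M y + 1, ∃ j < M y + 1, ∃ k < M y + 1, M y = A y * i + B y * j + C y * k := by
  refine exB (R := fun i y => ∃ j < M y + 1, ∃ k < M y + 1, M y = A y * i + B y * j + C y * k) ?_
    (Primrec.succ.comp hM)
  refine exB (R := fun j (y : ℕ × β) => ∃ k < M y.2 + 1, M y.2 = A y.2 * y.1 + B y.2 * j + C y.2 * k)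
    ?_ (Primrec.succ.comp (hM.comp Primrec.snd))
  refine exB (R := fun k (y : ℕ × ℕ × β) => M y.2.2 = A y.2.2 * y.2.1 + B y.2.2 * y.1 + C y.2.2 * k)
    ?_ (Primrec.succ.comp (hM.comp (Primrec.snd.comp Primrec.snd)))
  have h3 : Primrec fun q : ℕ × ℕ × ℕ × β => q.2.2.2 :=
    Primrec.snd.comp (Primrec.snd.comp Primrec.snd)
  have hi : Primrec fun q : ℕ × ℕ × ℕ × β => q.2.2.1 :=
    Primrec.fst.comp (Primrec.snd.comp Primrec.snd)
  have hj : Primrec fun q : ℕ × ℕ × ℕ × β => q.2.1 := Primrec.fst.comp Primrec.snd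
  have hk : Primrec fun q : ℕ × ℕ × ℕ × β => q.1 := Primrec.fst
  exact Primrec.eq.comp (hM.comp h3)
    (Primrec.nat_add.comp (Primrec.nat_add.comp (Primrec.nat_mul.comp (hA.comp h3) hi)
      (Primrec.nat_mul.comp (hB.comp h3) hj)) (Primrec.nat_mul.comp (hC.comp h3) hk))

private theorem gen2B {β : Type*} [Primcodable β] {A B M : β → ℕ} (hA : Primrec A)
    (hB : Primrec B) (hM : Primrec M) : PrimrecPred fun y =>
      ∃ i < M y + 1, ∃ j < M y + 1, M y = A y * i + B y * j := by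
  refine exB (R := fun i y => ∃ j < M y + 1, M y = A y * i + B y * j) ?_
    (Primrec.succ.comp hM)
  refine exB (R := fun j (y : ℕ × β) => M y.2 = A y.2 * y.1 + B y.2 * j)
    ?_ (Primrec.succ.comp (hM.comp Primrec.snd))
  have h3 : Primrec fun q : ℕ × ℕ × β => q.2.2 := Primrec.snd.comp Primrec.snd
  have hi : Primrec fun q : ℕ × ℕ × β => q.2.1 := Primrec.fst.comp Primrec.snd
  have hj : Primrec fun q : ℕ × ℕ × β => q.1 := Primrec.fst
  exact Primrec.eq.comp (hM.comp h3)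
    (Primrec.nat_add.comp (Primrec.nat_mul.comp (hA.comp h3) hi)
      (Primrec.nat_mul.comp (hB.comp h3) hj))

private theorem gcdB {β : Type*} [Primcodable β] {A B C : β → ℕ} (hA : Primrec A)
    (hB : Primrec B) (hC : Primrec C) : PrimrecPred fun y =>
      ∀ d < A y + 1, A y % d = 0 → B y % d = 0 → C y % d = 0 → d = 1 := by
  refine allB (R := fun d y => A y % d = 0 → B y % d = 0 → C y % d = 0 → d = 1) ?_
    (Primrec.succ.comp hA)
  have h3 : Primrec fun q : ℕ × β => q.2 := Primrec.snd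
  have hd : Primrec fun q : ℕ × β => q.1 := Primrec.fst
  exact impB (Primrec.eq.comp (Primrec.nat_mod.comp (hA.comp h3) hd) (Primrec.const 0))
    (impB (Primrec.eq.comp (Primrec.nat_mod.comp (hB.comp h3) hd) (Primrec.const 0))
    (impB (Primrec.eq.comp (Primrec.nat_mod.comp (hC.comp h3) hd) (Primrec.const 0))
    (Primrec.eq.comp hd (Primrec.const 1))))

private theorem mxB : Primrec mx := by
  have h : Primrec fun l : List ℕ => l.foldr (fun x y => x + y) 0 :=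
    Primrec.list_foldr (f := fun l : List ℕ => l) (g := fun _ => 0)
      (h := fun _ (p : ℕ × ℕ) => p.1 + p.2) Primrec.id (Primrec.const 0)
      (Primrec.nat_add.comp (Primrec.fst.comp Primrec.snd) (Primrec.snd.comp Primrec.snd))
  exact (Primrec.succ.comp h).of_eq fun l => by
    simp [mx, List.sum]

private theorem gen_iff {a b c m : ℕ} (ha : 0 < a) (hb : 0 < b) (hc : 0 < c) :
    (∃ i < m + 1, ∃ j < m + 1, ∃ k < m + 1, m = a * i + b * j + c * k) ↔ Gen a b c m := by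
  constructor
  · rintro ⟨i, _, j, _, k, _, h⟩
    exact ⟨i, j, k, h⟩
  · rintro ⟨i, j, k, h⟩
    have h1 : i ≤ a * i := Nat.le_mul_of_pos_left i ha
    have h2 : j ≤ b * j := Nat.le_mul_of_pos_left j hb
    have h3 : k ≤ c * k := Nat.le_mul_of_pos_left k hc
    exact ⟨i, by omega, j, by omega, k, by omega, h⟩

private theorem gen2_iff {a b m : ℕ} (ha : 0 < a) (hb : 0 < b) :
    (∃ i < m + 1, ∃ j < m + 1, m = a * i + b * j) ↔ Gen2 a b m := by
  constructor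
  · rintro ⟨i, _, j, _, h⟩
    exact ⟨i, j, h⟩
  · rintro ⟨i, j, h⟩
    have h1 : i ≤ a * i := Nat.le_mul_of_pos_left i ha
    have h2 : j ≤ b * j := Nat.le_mul_of_pos_left j hb
    exact ⟨i, by omega, j, by omega, h⟩

private theorem gcd_iff {a b c : ℕ} (ha : 0 < a) :
    (∀ d < a + 1, a % d = 0 → b % d = 0 → c % d = 0 → d = 1) ↔ Nat.gcd (Nat.gcd a b) c = 1 := by
  constructor
  · intro h
    have h1 : Nat.gcd (Nat.gcd a b) c ∣ a := (Nat.gcd_dvd_left _ _).trans (Nat.gcd_dvd_left _ _)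
    have h2 : Nat.gcd (Nat.gcd a b) c ∣ b := (Nat.gcd_dvd_left _ _).trans (Nat.gcd_dvd_right _ _)
    have h3 : Nat.gcd (Nat.gcd a b) c ∣ c := Nat.gcd_dvd_right _ _
    exact h _ (Nat.lt_succ_of_le (Nat.le_of_dvd ha h1)) (Nat.mod_eq_zero_of_dvd h1)
      (Nat.mod_eq_zero_of_dvd h2) (Nat.mod_eq_zero_of_dvd h3)
  · intro h d _ h1 h2 h3
    have h4 : d ∣ Nat.gcd (Nat.gcd a b) c := Nat.dvd_gcd
      (Nat.dvd_gcd (Nat.dvd_of_mod_eq_zero h1) (Nat.dvd_of_mod_eq_zero h2))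
      (Nat.dvd_of_mod_eq_zero h3)
    rw [h] at h4
    exact Nat.dvd_one.1 h4

theorem comp (f : ℕ → ℕ) (hf : Primrec f) :
    PrimrecPred fun l : List ℕ => Check (f (mx l)) (mx l) l := by
  have hF : Primrec fun l : List ℕ => f (mx l) := hf.comp mxB
  have key : PrimrecPred fun l : List ℕ => ∃ a < f (mx l), ∃ b < f (mx l), ∃ c < f (mx l),
      ∃ p < f (mx l), (0 < a ∧ 0 < b ∧ 0 < c ∧ 0 < p) ∧
      (∀ d < a + 1, a % d = 0 → b % d = 0 → c % d = 0 → d = 1) ∧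
      (¬ (∃ i < a + 1, ∃ j < a + 1, a = b * i + c * j)) ∧
      (¬ (∃ i < b + 1, ∃ j < b + 1, b = a * i + c * j)) ∧
      (¬ (∃ i < c + 1, ∃ j < c + 1, c = a * i + b * j)) ∧
      ∀ x < 2 * mx l + 2, (x ∉ l ↔ ∃ i < p * x + 1, ∃ j < p * x + 1, ∃ k < p * x + 1,
        p * x = a * i + b * j + c * k) := by
    refine exB (R := fun a (l : List ℕ) => ∃ b < f (mx l), ∃ c < f (mx l),
      ∃ p < f (mx l), (0 < a ∧ 0 < b ∧ 0 < c ∧ 0 < p) ∧
      (∀ d < a + 1, a % d = 0 → b % d = 0 → c % d = 0 → d = 1) ∧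
      (¬ (∃ i < a + 1, ∃ j < a + 1, a = b * i + c * j)) ∧
      (¬ (∃ i < b + 1, ∃ j < b + 1, b = a * i + c * j)) ∧
      (¬ (∃ i < c + 1, ∃ j < c + 1, c = a * i + b * j)) ∧
      ∀ x < 2 * mx l + 2, (x ∉ l ↔ ∃ i < p * x + 1, ∃ j < p * x + 1, ∃ k < p * x + 1,
        p * x = a * i + b * j + c * k)) ?_ hF
    refine exB (R := fun b (y : ℕ × List ℕ) => ∃ c < f (mx y.2),
      ∃ p < f (mx y.2), (0 < y.1 ∧ 0 < b ∧ 0 < c ∧ 0 < p) ∧
      (∀ d < y.1 + 1, y.1 % d = 0 → b % d = 0 → c % d = 0 → d = 1) ∧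
      (¬ (∃ i < y.1 + 1, ∃ j < y.1 + 1, y.1 = b * i + c * j)) ∧
      (¬ (∃ i < b + 1, ∃ j < b + 1, b = y.1 * i + c * j)) ∧
      (¬ (∃ i < c + 1, ∃ j < c + 1, c = y.1 * i + b * j)) ∧
      ∀ x < 2 * mx y.2 + 2, (x ∉ y.2 ↔ ∃ i < p * x + 1, ∃ j < p * x + 1, ∃ k < p * x + 1,
        p * x = y.1 * i + b * j + c * k)) ?_ (hF.comp Primrec.snd)
    refine exB (R := fun c (y : ℕ × ℕ × List ℕ) =>
      ∃ p < f (mx y.2.2), (0 < y.2.1 ∧ 0 < y.1 ∧ 0 < c ∧ 0 < p) ∧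
      (∀ d < y.2.1 + 1, y.2.1 % d = 0 → y.1 % d = 0 → c % d = 0 → d = 1) ∧
      (¬ (∃ i < y.2.1 + 1, ∃ j < y.2.1 + 1, y.2.1 = y.1 * i + c * j)) ∧
      (¬ (∃ i < y.1 + 1, ∃ j < y.1 + 1, y.1 = y.2.1 * i + c * j)) ∧
      (¬ (∃ i < c + 1, ∃ j < c + 1, c = y.2.1 * i + y.1 * j)) ∧
      ∀ x < 2 * mx y.2.2 + 2, (x ∉ y.2.2 ↔ ∃ i < p * x + 1, ∃ j < p * x + 1, ∃ k < p * x + 1,
        p * x = y.2.1 * i + y.1 * j + c * k)) ?_ (hF.comp (Primrec.snd.comp Primrec.snd))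
    refine exB (R := fun p (y : ℕ × ℕ × ℕ × List ℕ) =>
      (0 < y.2.2.1 ∧ 0 < y.2.1 ∧ 0 < y.1 ∧ 0 < p) ∧
      (∀ d < y.2.2.1 + 1, y.2.2.1 % d = 0 → y.2.1 % d = 0 → y.1 % d = 0 → d = 1) ∧
      (¬ (∃ i < y.2.2.1 + 1, ∃ j < y.2.2.1 + 1, y.2.2.1 = y.2.1 * i + y.1 * j)) ∧
      (¬ (∃ i < y.2.1 + 1, ∃ j < y.2.1 + 1, y.2.1 = y.2.2.1 * i + y.1 * j)) ∧
      (¬ (∃ i < y.1 + 1, ∃ j < y.1 + 1, y.1 = y.2.2.1 * i + y.2.1 * j)) ∧
      ∀ x < 2 * mx y.2.2.2 + 2, (x ∉ y.2.2.2 ↔ ∃ i < p * x + 1, ∃ j < p * x + 1,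
        ∃ k < p * x + 1, p * x = y.2.2.1 * i + y.2.1 * j + y.1 * k)) ?_
        (hF.comp (Primrec.snd.comp (Primrec.snd.comp Primrec.snd)))
    have hl : Primrec fun q : ℕ × ℕ × ℕ × ℕ × List ℕ => q.2.2.2.2 :=
      Primrec.snd.comp (Primrec.snd.comp (Primrec.snd.comp Primrec.snd))
    have ha : Primrec fun q : ℕ × ℕ × ℕ × ℕ × List ℕ => q.2.2.2.1 :=
      Primrec.fst.comp (Primrec.snd.comp (Primrec.snd.comp Primrec.snd))
    have hb : Primrec fun q : ℕ × ℕ × ℕ × ℕ × List ℕ => q.2.2.1 :=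
      Primrec.fst.comp (Primrec.snd.comp Primrec.snd)
    have hc : Primrec fun q : ℕ × ℕ × ℕ × ℕ × List ℕ => q.2.1 := Primrec.fst.comp Primrec.snd
    have hp : Primrec fun q : ℕ × ℕ × ℕ × ℕ × List ℕ => q.1 := Primrec.fst
    have hz : Primrec fun _ : ℕ × ℕ × ℕ × ℕ × List ℕ => 0 := Primrec.const 0
    refine PrimrecPred.and ((Primrec.nat_lt.comp hz ha).and ((Primrec.nat_lt.comp hz hb).and
      ((Primrec.nat_lt.comp hz hc).and (Primrec.nat_lt.comp hz hp)))) ?_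
    refine PrimrecPred.and (gcdB ha hb hc) ?_
    refine PrimrecPred.and (gen2B hb hc ha).not ?_
    refine PrimrecPred.and (gen2B ha hc hb).not ?_
    refine PrimrecPred.and (gen2B ha hb hc).not ?_
    refine allB (R := fun x (q : ℕ × ℕ × ℕ × ℕ × List ℕ) => (x ∉ q.2.2.2.2 ↔
      ∃ i < q.1 * x + 1, ∃ j < q.1 * x + 1, ∃ k < q.1 * x + 1,
        q.1 * x = q.2.2.2.1 * i + q.2.2.1 * j + q.2.1 * k)) ?_
      (Primrec.succ.comp (Primrec.succ.comp (Primrec.nat_mul.comp (Primrec.const 2)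
        (mxB.comp hl))))
    have hs : Primrec fun z : ℕ × ℕ × ℕ × ℕ × ℕ × List ℕ => z.2 := Primrec.snd
    have hx : Primrec fun z : ℕ × ℕ × ℕ × ℕ × ℕ × List ℕ => z.1 := Primrec.fst
    exact iffB (memB hx (hl.comp hs)).not
      (genB (ha.comp hs) (hb.comp hs) (hc.comp hs) (Primrec.nat_mul.comp (hp.comp hs) hx))
  refine key.of_eq fun l => ?_
  unfold Check
  constructor
  · rintro ⟨a, ha', b, hb', c, hc', p, hp', ⟨ha, hb, hc, hp⟩, h1, h2, h3, h4, h5⟩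
    refine ⟨a, ha', b, hb', c, hc', p, hp', ha, hb, hc, hp, (gcd_iff ha).1 h1,
      fun h => h2 ((gen2_iff hb hc).2 h), fun h => h3 ((gen2_iff ha hc).2 h),
      fun h => h4 ((gen2_iff ha hb).2 h), fun x hx => (h5 x hx).trans (gen_iff ha hb hc)⟩
  · rintro ⟨a, ha', b, hb', c, hc', p, hp', ha, hb, hc, hp, h1, h2, h3, h4, h5⟩
    refine ⟨a, ha', b, hb', c, hc', p, hp', ⟨ha, hb, hc, hp⟩, (gcd_iff ha).2 h1,
      fun h => h2 ((gen2_iff hb hc).1 h), fun h => h3 ((gen2_iff ha hc).1 h),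
      fun h => h4 ((gen2_iff ha hb).1 h), fun x hx => (h5 x hx).trans (gen_iff ha hb hc).symm⟩

theorem comp2 : PrimrecPred fun l : List ℕ =>
    0 ∉ l ∧ ∀ x < mx l + 1, ∀ y < mx l + 1, x ∉ l → y ∉ l → x + y ∉ l := by
  refine PrimrecPred.and (memB (Primrec.const 0) Primrec.id).not ?_
  refine allB (R := fun x (l : List ℕ) => ∀ y < mx l + 1, x ∉ l → y ∉ l → x + y ∉ l) ?_
    (Primrec.succ.comp mxB)
  refine allB (R := fun y (q : ℕ × List ℕ) => q.1 ∉ q.2 → y ∉ q.2 → q.1 + y ∉ q.2) ?_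
    (Primrec.succ.comp (mxB.comp Primrec.snd))
  have hl : Primrec fun q : ℕ × ℕ × List ℕ => q.2.2 := Primrec.snd.comp Primrec.snd
  have hx : Primrec fun q : ℕ × ℕ × List ℕ => q.2.1 := Primrec.fst.comp Primrec.snd
  have hy : Primrec fun q : ℕ × ℕ × List ℕ => q.1 := Primrec.fst
  exact impB (memB hx hl).not (impB (memB hy hl).not (memB (Primrec.nat_add.comp hx hy) hl).not)

end Pool.Agent.Qdec
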