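import Pool.Agent.Qdec.Def

/-!
# Forms with coprime minors (helper60)  (module)

COMPLETE PAPER PROOF.  (`L ≥ 1`, `D > 0`, `b 1 < b 0`, all of `D, |a i|, |b i|` at most `H`.)
* `K = D (L + 1)`.  Index `0`: `A 0 = a 0`, `B 0 = b 0`, `w 0 = D` (errors `0`).
* Index `1`: `w 1 = D K`, `A 1 = a 1 K` (error `0`), `B 1 = b 1 K + 1` (error `D B 1 - w 1 b 1 = D`, and
`L D < D K = w 1`).  `IsCoprime (B 1) (w 1)`: `b 1 K + 1` is coprime to `K` and to `D` (which divides `K`).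
* `U = u2 B w = B 0 w 1 - B 1 w 0 = D ((b 0 - b 1) K - 1) > 0` as `K ≥ 2`, `b 0 - b 1 ≥ 1`.
* from `IsCoprime (B 1) (w 1)` get `(Bs, ws)` with `Bs * w 1 - B 1 * ws = 1`.
* `w 2 = U (L D + 1) + (ws mod U)`: so `w 2 = ws + U l` for an integer `l`, and `U (L D + 1) ≤ w 2 < U (L D + 2)`.
* `B 2 = Bs + U k` with `k = ⌊(w 2 * b 2 - D Bs) / (D U)⌋` (`Int.ediv`), so `0 ≤ w 2 b 2 - D B 2 < D U`, and
`L D U < w 2`.
* `A 2 = (w 2 * a 2) / D` (`Int.ediv`): `0 ≤ w 2 a 2 - D A 2 < D`, and `L D ≤ L D U < w 2`.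
* `u0 B w = B 2 w 1 - B 1 w 2 = 1 + U (k w 1 - l B 1)`, so it is coprime to `U = u2 B w`.
* Bounds (all with `H ≥ 1`, `L ≥ 1`): `K ≤ H (L+1)`, `w 1 ≤ H² (L+1)`, `|A 1| ≤ H² (L+1)`, `|B 1| ≤ H² (L+2)`,
`0 < U ≤ 2 H³ (L+1)`, `w 2 ≤ U (L D + 2) ≤ 2 H⁴ (L+2)²`, `|B 2| ≤ H w 2 + U ≤ 4 H⁵ (L+2)²`,
`|A 2| ≤ H w 2 + 1 ≤ 4 H⁵ (L+2)²`, `|u0| ≤ |B 2| w 1 + |B 1| w 2 ≤ 6 H⁷ (L+2)³`,
`|u1| ≤ |B 2| w 0 + |B 0| w 2 ≤ 6 H⁶ (L+2)²`, `|pp| ≤ |u0||A 0| + |u1||A 1| + |u2||A 2| ≤ 20 H⁸ (L+2)³`.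
-/

set_option autoImplicit false

namespace Pool.Agent.Qdec

private theorem mono {H M : ℤ} (hH : 1 ≤ H) (hM : 1 ≤ M) {a b c d : ℕ} (h1 : a ≤ c) (h2 : b ≤ d) :
    H ^ a * M ^ b ≤ H ^ c * M ^ d :=
  mul_le_mul (pow_le_pow_right₀ hH h1) (pow_le_pow_right₀ hM h2) (pow_nonneg (by linarith) _)
    (pow_nonneg (by linarith) _)

private theorem mulb {x y X Y : ℤ} (h1 : |x| ≤ X) (h2 : |y| ≤ Y) : |x * y| ≤ X * Y := by
  rw [abs_mul]
  exact mul_le_mul h1 h2 (abs_nonneg _) (le_trans (abs_nonneg _) h1)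

private theorem subb {x y X Y : ℤ} (h1 : |x| ≤ X) (h2 : |y| ≤ Y) : |x - y| ≤ X + Y :=
  (abs_sub x y).trans (add_le_add h1 h2)

private theorem addb {x y X Y : ℤ} (h1 : |x| ≤ X) (h2 : |y| ≤ Y) : |x + y| ≤ X + Y :=
  (abs_add_le x y).trans (add_le_add h1 h2)

theorem construct (L D H : ℤ) (hL : 1 ≤ L) (hD : 0 < D) (a b : Fin 3 → ℤ) (hb : b 1 < b 0)
    (hDH : D ≤ H) (haH : ∀ i, |a i| ≤ H) (hbH : ∀ i, |b i| ≤ H) :
    ∃ A B w : Fin 3 → ℤ, (∀ i, 0 < w i) ∧ (∀ i, L * |D * A i - w i * a i| < w i) ∧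
      (∀ i, L * |D * B i - w i * b i| < w i) ∧ IsCoprime (u0 B w) (u2 B w) ∧
      |u0 B w| ≤ 8 * H ^ 7 * (L + 2) ^ 3 ∧ |u1 B w| ≤ 8 * H ^ 7 * (L + 2) ^ 3 ∧
      |u2 B w| ≤ 8 * H ^ 7 * (L + 2) ^ 3 ∧ |pp A B w| ≤ 20 * H ^ 8 * (L + 2) ^ 3 := by
  have hD1 : 1 ≤ D := Int.add_one_le_iff.2 hD
  have hH1 : 1 ≤ H := hD1.trans hDH
  have hL0 : 0 ≤ L := by linarith only [hL]
  have hH0 : 0 ≤ H := by linarith only [hH1]
  obtain ⟨M, hM⟩ : ∃ M : ℤ, M = L + 2 := ⟨_, rfl⟩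
  have hM1 : 1 ≤ M := by linarith only [hL, hM]
  rw [← hM]
  obtain ⟨a0, ha0⟩ : ∃ x, x = a 0 := ⟨_, rfl⟩
  obtain ⟨a1, ha1⟩ : ∃ x, x = a 1 := ⟨_, rfl⟩
  obtain ⟨a2, ha2⟩ : ∃ x, x = a 2 := ⟨_, rfl⟩
  obtain ⟨b0, hb0⟩ : ∃ x, x = b 0 := ⟨_, rfl⟩
  obtain ⟨b1, hb1⟩ : ∃ x, x = b 1 := ⟨_, rfl⟩
  obtain ⟨b2, hb2⟩ : ∃ x, x = b 2 := ⟨_, rfl⟩
  have hab0 : |a0| ≤ H := ha0 ▸ haH 0
  have hab1 : |a1| ≤ H := ha1 ▸ haH 1
  have hab2 : |a2| ≤ H := ha2 ▸ haH 2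
  have hbb0 : |b0| ≤ H := hb0 ▸ hbH 0
  have hbb1 : |b1| ≤ H := hb1 ▸ hbH 1
  have hbb2 : |b2| ≤ H := hb2 ▸ hbH 2
  have hbb : b1 + 1 ≤ b0 := by rw [hb0, hb1]; exact Int.add_one_le_iff.2 hb
  obtain ⟨K, hK⟩ : ∃ K : ℤ, K = D * (L + 1) := ⟨_, rfl⟩
  have hK2 : 2 ≤ K := by rw [hK]; nlinarith only [hD1, hL]
  obtain ⟨w1, hw1⟩ : ∃ w1 : ℤ, w1 = D * K := ⟨_, rfl⟩
  obtain ⟨A1, hA1⟩ : ∃ A1 : ℤ, A1 = a1 * K := ⟨_, rfl⟩
  obtain ⟨B1, hB1⟩ : ∃ B1 : ℤ, B1 = b1 * K + 1 := ⟨_, rfl⟩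
  obtain ⟨U, hU⟩ : ∃ U : ℤ, U = b0 * w1 - B1 * D := ⟨_, rfl⟩
  have hU' : U = D * ((b0 - b1) * K - 1) := by rw [hU, hw1, hB1]; ring
  have hU0 : 1 ≤ U := by
    rw [hU']
    have h1 : 1 ≤ (b0 - b1) * K - 1 := by nlinarith only [hK2, hbb]
    nlinarith only [h1, hD1]
  have hcop : IsCoprime B1 w1 := by
    rw [hw1, hB1]
    refine IsCoprime.mul_right ?_ ?_
    · exact ⟨1, -b1 * (L + 1), by rw [hK]; ring⟩
    · exact ⟨1, -b1, by ring⟩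
  obtain ⟨u, v, huv⟩ := hcop
  obtain ⟨q, hq⟩ : ∃ q : ℤ, q = (-u) / U := ⟨_, rfl⟩
  have hmod0 : 0 ≤ (-u) % U := Int.emod_nonneg _ (by linarith only [hU0])
  have hmod1 : (-u) % U < U := Int.emod_lt_of_pos _ (by linarith only [hU0])
  have hmod2 : (-u) % U = -u - U * q := by rw [hq]; exact Int.emod_def _ _
  obtain ⟨l, hl⟩ : ∃ l : ℤ, l = L * D + 1 - q := ⟨_, rfl⟩
  obtain ⟨w2, hw2⟩ : ∃ w2 : ℤ, w2 = -u + U * l := ⟨_, rfl⟩
  have hw2' : w2 = U * (L * D + 1) + (-u) % U := by rw [hmod2, hw2, hl]; ring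
  have hw2lo : U * (L * D + 1) ≤ w2 := by linarith only [hw2', hmod0]
  have hw2hi : w2 ≤ U * (L * D + 2) := by linarith only [hw2', hmod1]
  have hDU : 0 < D * U := by positivity
  obtain ⟨k, hk⟩ : ∃ k : ℤ, k = (w2 * b2 - D * v) / (D * U) := ⟨_, rfl⟩
  have hkm0 : 0 ≤ (w2 * b2 - D * v) % (D * U) := Int.emod_nonneg _ hDU.ne'
  have hkm1 : (w2 * b2 - D * v) % (D * U) < D * U := Int.emod_lt_of_pos _ hDU
  have hkm2 : (w2 * b2 - D * v) % (D * U) = (w2 * b2 - D * v) - D * U * k := by rw [hk]; exact Int.emod_def _ _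
  obtain ⟨B2, hB2⟩ : ∃ B2 : ℤ, B2 = v + U * k := ⟨_, rfl⟩
  have hB2e : w2 * b2 - D * B2 = (w2 * b2 - D * v) % (D * U) := by rw [hkm2, hB2]; ring
  obtain ⟨A2, hA2⟩ : ∃ A2 : ℤ, A2 = (w2 * a2) / D := ⟨_, rfl⟩
  have ham0 : 0 ≤ (w2 * a2) % D := Int.emod_nonneg _ hD.ne'
  have ham1 : (w2 * a2) % D < D := Int.emod_lt_of_pos _ hD
  have ham2 : (w2 * a2) % D = w2 * a2 - D * A2 := by rw [hA2]; exact Int.emod_def _ _
  have hLD : 0 < L * D := by positivity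
  have hw2pos : 0 < w2 := by nlinarith only [hw2lo, hLD, hU0]
  have hK0 : 0 < K := by linarith only [hK2]
  have hU0' : 0 < U := by linarith only [hU0]
  have hM0 : 0 ≤ M := by linarith only [hM1]
  -- bounds
  have eD : |D| ≤ H := by rw [abs_of_pos hD]; exact hDH
  have eK : |K| ≤ H * M := by
    rw [abs_of_pos hK0, hK]
    exact mul_le_mul hDH (by linarith only [hM]) (by linarith only [hL]) hH0
  have ew1 : |w1| ≤ H ^ 2 * M := by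
    have := mulb eD eK
    rw [hw1]
    linarith only [this]
  have eA1 : |A1| ≤ H ^ 2 * M := by
    have := mulb hab1 eK
    rw [hA1]
    linarith only [this]
  have eK' : |K| ≤ H * (M - 1) := by
    rw [abs_of_pos hK0, hK]
    exact mul_le_mul hDH (by linarith only [hM]) (by linarith only [hL]) hH0
  have hHH : 1 ≤ H ^ 2 := one_le_pow₀ hH1
  have eB1 : |B1| ≤ H ^ 2 * M := by
    have h1 := mulb hbb1 eK'
    have h2 := addb h1 (show |(1 : ℤ)| ≤ 1 by simp)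
    rw [hB1]
    nlinarith only [h2, hHH]
  have eU : |U| ≤ 2 * H ^ 3 * M := by
    rw [abs_of_pos hU0', hU']
    have h1 : b0 - b1 ≤ 2 * H := by linarith only [(abs_le.1 hbb0).2, (abs_le.1 hbb1).1]
    have h2 : (b0 - b1) * K ≤ 2 * H * (H * M) := by
      have hKM : K ≤ H * M := (le_abs_self K).trans eK
      exact mul_le_mul h1 hKM hK0.le (by linarith only [hH1])
    have h3 : (b0 - b1) * K - 1 ≤ 2 * H * (H * M) := by linarith only [h2]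
    have h4 : 0 ≤ (b0 - b1) * K - 1 := by nlinarith only [hK2, hbb]
    calc D * ((b0 - b1) * K - 1) ≤ H * (2 * H * (H * M)) := mul_le_mul hDH h3 h4 hH0
      _ = 2 * H ^ 3 * M := by ring
  have hUle : U ≤ 2 * H ^ 3 * M := (le_abs_self U).trans eU
  have ew2 : |w2| ≤ 2 * H ^ 4 * M ^ 2 := by
    rw [abs_of_pos hw2pos]
    have h1 : L * D + 2 ≤ H * M := by
      rw [hM]
      nlinarith only [hDH, hL0, hH1]
    calc w2 ≤ U * (L * D + 2) := hw2hi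
      _ ≤ (2 * H ^ 3 * M) * (H * M) := mul_le_mul hUle h1 (by linarith only [hLD]) (hU0'.le.trans hUle)
      _ = 2 * H ^ 4 * M ^ 2 := by ring
  have ew2' : w2 ≤ 2 * H ^ 4 * M ^ 2 := (le_abs_self w2).trans ew2
  have ew2b : |w2 * b2| ≤ 2 * H ^ 5 * M ^ 2 := by
    have := mulb ew2 hbb2
    linarith only [this]
  have ew2a : |w2 * a2| ≤ 2 * H ^ 5 * M ^ 2 := by
    have := mulb ew2 hab2
    linarith only [this]
  have hdiv : ∀ x y z : ℤ, 0 ≤ y → |D * x| ≤ y + D * z → |x| ≤ y + z := by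
    intro x y z hy h
    rw [abs_mul, abs_of_pos hD] at h
    by_contra hc
    push Not at hc
    have h2 := mul_lt_mul_of_pos_left hc hD
    have h3 := mul_le_mul_of_nonneg_right hD1 hy
    linarith only [h, h2, h3]
  have hpos5 : 0 ≤ 2 * H ^ 5 * M ^ 2 := (abs_nonneg _).trans ew2b
  have eB2 : |B2| ≤ 2 * H ^ 5 * M ^ 2 + U := by
    refine hdiv _ _ _ hpos5 ?_
    have h1 : D * B2 = w2 * b2 - (w2 * b2 - D * v) % (D * U) := by linarith only [hB2e]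
    rw [h1]
    refine subb ew2b ?_
    rw [abs_of_nonneg hkm0]
    exact hkm1.le
  have eA2 : |A2| ≤ 2 * H ^ 5 * M ^ 2 + 1 := by
    refine hdiv _ _ _ hpos5 ?_
    have h1 : D * A2 = w2 * a2 - (w2 * a2) % D := by linarith only [ham2]
    rw [h1]
    refine subb ew2a ?_
    rw [abs_of_nonneg ham0]
    linarith only [ham1]
  have m31 := mono hH1 hM1 (a := 3) (b := 1) (c := 5) (d := 2) (by norm_num) (by norm_num)
  have m00 := mono hH1 hM1 (a := 0) (b := 0) (c := 5) (d := 2) (by norm_num) (by norm_num)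
  have m73 := mono hH1 hM1 (a := 6) (b := 3) (c := 7) (d := 3) (by norm_num) (by norm_num)
  have m62 := mono hH1 hM1 (a := 5) (b := 2) (c := 6) (d := 2) (by norm_num) (by norm_num)
  have m62' := mono hH1 hM1 (a := 6) (b := 2) (c := 7) (d := 3) (by norm_num) (by norm_num)
  have m31' := mono hH1 hM1 (a := 3) (b := 1) (c := 7) (d := 3) (by norm_num) (by norm_num)
  simp only [pow_zero, pow_one, mul_one] at m31 m00 m31'
  have eB2' : |B2| ≤ 4 * H ^ 5 * M ^ 2 := by linarith only [eB2, hUle, m31]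
  have eA2' : |A2| ≤ 3 * H ^ 5 * M ^ 2 := by linarith only [eA2, m00]
  have n73 : 0 ≤ H ^ 7 * M ^ 3 := mul_nonneg (pow_nonneg hH0 _) (pow_nonneg hM0 _)
  have n83 : 0 ≤ H ^ 8 * M ^ 3 := mul_nonneg (pow_nonneg hH0 _) (pow_nonneg hM0 _)
  have eu0 : |B2 * w1 - B1 * w2| ≤ 6 * H ^ 7 * M ^ 3 := by
    have := subb (mulb eB2' ew1) (mulb eB1 ew2)
    linarith only [this, m73]
  have eu1 : |B2 * D - b0 * w2| ≤ 6 * H ^ 6 * M ^ 2 := by
    have := subb (mulb eB2' eD) (mulb hbb0 ew2)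
    linarith only [this, m62]
  have eu2 : |b0 * w1 - B1 * D| ≤ 2 * H ^ 3 * M := by
    rw [← hU]
    exact eU
  refine ⟨![a0, A1, A2], ![b0, B1, B2], ![D, w1, w2], ?_, ?_, ?_, ?_, ?_, ?_, ?_, ?_⟩
  · intro i
    fin_cases i
    · exact hD
    · change 0 < w1
      rw [hw1]
      positivity
    · exact hw2pos
  · intro i
    fin_cases i
    · change L * |D * a0 - D * a 0| < D
      rw [ha0, sub_self, abs_zero, mul_zero]
      exact hD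
    · change L * |D * A1 - w1 * a 1| < w1
      have h1 : D * A1 - w1 * a 1 = 0 := by rw [hA1, hw1, ← ha1]; ring
      rw [h1, abs_zero, mul_zero, hw1]
      positivity
    · change L * |D * A2 - w2 * a 2| < w2
      have h1 : |D * A2 - w2 * a 2| ≤ D := by
        rw [← ha2, abs_sub_comm, ← ham2, abs_of_nonneg ham0]
        exact ham1.le
      have h2 : L * |D * A2 - w2 * a 2| ≤ L * D := mul_le_mul_of_nonneg_left h1 hL0
      nlinarith only [h2, hw2lo, hLD, hU0]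
  · intro i
    fin_cases i
    · change L * |D * b0 - D * b 0| < D
      rw [hb0, sub_self, abs_zero, mul_zero]
      exact hD
    · change L * |D * B1 - w1 * b 1| < w1
      have h1 : D * B1 - w1 * b 1 = D := by rw [hB1, hw1, ← hb1]; ring
      rw [h1, abs_of_pos hD, hw1, hK]
      nlinarith only [hD1, hL0, mul_nonneg hL0 hD.le, mul_nonneg (mul_nonneg hL0 hD.le) (sub_nonneg.2 hD1)]
    · change L * |D * B2 - w2 * b 2| < w2
      have h1 : |D * B2 - w2 * b 2| ≤ D * U := by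
        rw [← hb2, abs_sub_comm, hB2e, abs_of_nonneg hkm0]
        exact hkm1.le
      have h2 : L * |D * B2 - w2 * b 2| ≤ L * (D * U) := mul_le_mul_of_nonneg_left h1 hL0
      linarith only [h2, hw2lo, hU0]
  · change IsCoprime (B2 * w1 - B1 * w2) (b0 * w1 - B1 * D)
    rw [← hU]
    refine ⟨1, -(k * w1 - l * B1), ?_⟩
    rw [hB2, hw2]
    linear_combination huv
  · change |B2 * w1 - B1 * w2| ≤ _
    linarith only [eu0, n73]
  · change |B2 * D - b0 * w2| ≤ _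
    linarith only [eu1, m62', n73]
  · change |b0 * w1 - B1 * D| ≤ _
    linarith only [eu2, m31', n73]
  · change |(B2 * w1 - B1 * w2) * a0 - (B2 * D - b0 * w2) * A1 - (b0 * w1 - B1 * D) * A2| ≤ _
    have := subb (subb (mulb eu0 hab0) (mulb eu1 eA1)) (mulb eu2 eA2')
    linarith only [this, n83]

end Pool.Agent.Qdec
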