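import Mathlib

/-!
# Deciding whether a numerical semigroup is a quotient of one of embedding dimension three (helper60)

Triangles are given by three forms: index `0` is the upper edge `A 0 x + B 0 t - w 0 m ≥ 0`, the indices `1`, `2`
are the lower edges `w i m - A i x - B i t ≥ 0`.  A sign pattern `P` says, for the lattice points `(x, t, m)` of a box,
which of the three forms are `≥ 0`.  `Fr N P A B w`: the forms `(A, B, w)` realise the pattern strictly on the box, and
the triangle lies strictly between `t = -7` and `t = 7`.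
-/

set_option autoImplicit false

namespace Pool.Agent.Qdec

/-- sign of a form: index `0` is the upper edge. -/
def sg (i : Fin 3) : ℤ := if i = 0 then 1 else -1

/-- the lattice points that are tested. -/
def InBox (N : ℕ) (x t m : ℤ) : Prop := 1 ≤ x ∧ x ≤ N ∧ |t| ≤ 7 * x ∧ |m| ≤ 16 * x

/-- the value of the form `i`. -/
def val (A B w : Fin 3 → ℤ) (i : Fin 3) (x t m : ℤ) : ℤ := sg i * (A i * x + B i * t - w i * m)

/-- `(A, B, w)` realises strictly the sign pattern `P` on the box. -/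
structure Fr (N : ℕ) (P : Fin 3 → ℤ → ℤ → ℤ → Prop) (A B w : Fin 3 → ℤ) : Prop where
  wpos : ∀ i, 0 < w i
  pos : ∀ i x t m, InBox N x t m → P i x t m → 0 < val A B w i x t m
  neg : ∀ i x t m, InBox N x t m → ¬ P i x t m → val A B w i x t m < 0
  absA : |A 0| < 2 * w 0
  absB : |B 0| < 2 * w 0
  right : (A 0 + 7 * B 0) * w 2 < (A 2 + 7 * B 2) * w 0
  left : (A 0 - 7 * B 0) * w 1 < (A 1 - 7 * B 1) * w 0

/-- some tested point lies in the triangle. -/
def Good (N : ℕ) (P : Fin 3 → ℤ → ℤ → ℤ → Prop) : Prop :=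
  ∃ x t m : ℤ, InBox N x t m ∧ |t| ≤ 6 * x ∧ ∀ i, P i x t m

/-- the three minors; they are the generators. -/
def u0 (B w : Fin 3 → ℤ) : ℤ := B 2 * w 1 - B 1 * w 2

/-- the three minors; they are the generators. -/
def u1 (B w : Fin 3 → ℤ) : ℤ := B 2 * w 0 - B 0 * w 2

/-- the three minors; they are the generators. -/
def u2 (B w : Fin 3 → ℤ) : ℤ := B 0 * w 1 - B 1 * w 0

/-- the denominator of the quotient. -/
def pp (A B w : Fin 3 → ℤ) : ℤ := u0 B w * A 0 - u1 B w * A 1 - u2 B w * A 2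

/-- the bound for the denominators of the slopes. -/
def HH (N : ℕ) : ℤ := 5040 * (16 * N) ^ 7

/-- numerical semigroups. -/
def IsNS (S : Set ℕ) : Prop := 0 ∈ S ∧ (∀ x ∈ S, ∀ y ∈ S, x + y ∈ S) ∧ Sᶜ.Finite

/-- `A` is a minimal system of generators of `T`. -/
def IsMinGen (A : Finset ℕ) (T : Set ℕ) : Prop :=
  (AddSubmonoid.closure (A : Set ℕ) : Set ℕ) = T ∧
    ∀ B : Finset ℕ, B ⊂ A → (AddSubmonoid.closure (B : Set ℕ) : Set ℕ) ≠ T

/-- `S` is the quotient of a numerical semigroup of embedding dimension three. -/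
def IsQ (S : Set ℕ) : Prop :=
  ∃ (T : Set ℕ) (A : Finset ℕ) (p : ℕ), IsNS T ∧ IsMinGen A T ∧ A.card = 3 ∧ 1 ≤ p ∧ S = {x | p * x ∈ T}

/-- `n` is a combination of `a`, `b`, `c` with coefficients in `ℕ`. -/
def Gen (a b c n : ℕ) : Prop := ∃ i j k : ℕ, n = a * i + b * j + c * k

/-- `n` is a combination of `a`, `b` with coefficients in `ℕ`. -/
def Gen2 (a b n : ℕ) : Prop := ∃ i j : ℕ, n = a * i + b * j

end Pool.Agent.Qdec
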