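import Pool.Agent.Qdec.Main

/-!
# The criterion and the primitive recursive predicate (helper60)
-/

set_option autoImplicit false

namespace Pool.Agent.Qdec

theorem crit_iff (n : ℕ) (h1 : 1 ≤ n) (S : Set ℕ) (hS : IsNS S) (hn : ∀ x, n < x → x ∈ S) :
    IsQ S ↔ Crit n S :=
  ⟨fun h => three_crit n h1 S hS hn (isQ_three S h), fun h => crit_isQ n S hn h⟩

private lemma primrec_pow (k : ℕ) : Primrec fun n : ℕ => (200 * n) ^ k := by
  induction k with
  | zero => simpa using Primrec.const 1
  | succ k ih =>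
    have h2 : Primrec fun n : ℕ => (200 * n) ^ k * (200 * n) :=
      Primrec.nat_mul.comp ih (Primrec.nat_mul.comp (Primrec.const 200) Primrec.id)
    exact h2.of_eq fun n => (pow_succ _ _).symm

private lemma le_sum {l : List ℕ} {x : ℕ} (h : x ∈ l) : x < mx l := by
  unfold mx
  have := List.le_sum_of_mem h
  omega

private lemma isNS_iff (l : List ℕ) : IsNS {x | x ∉ l} ↔
    (0 ∉ l ∧ ∀ x < mx l + 1, ∀ y < mx l + 1, x ∉ l → y ∉ l → x + y ∉ l) := by
  constructor
  · rintro ⟨h0, h, -⟩
    exact ⟨h0, fun x _ y _ hx hy => h x hx y hy⟩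
  · rintro ⟨h0, h⟩
    refine ⟨h0, ?_, ?_⟩
    · intro x hx y hy hxy
      have := le_sum hxy
      exact h x (by omega) y (by omega) hx hy hxy
    · have : ({x | x ∉ l} : Set ℕ)ᶜ = {x | x ∈ l} := by
        ext x
        simp
      rw [this]
      exact List.finite_toSet l

private lemma check_iff (l : List ℕ) :
    Check (bd (mx l) + 1) (mx l) l ↔ Crit (mx l) {x | x ∉ l} := by
  constructor
  · rintro ⟨a, ha, b, hb, c, hc, p, hp, h1, h2, h3, h4, hg, g1, g2, g3, hx⟩
    exact ⟨a, b, c, p, h1, h2, h3, h4, by omega, by omega, by omega, by omega, hg, g1, g2, g3,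
      fun x hx' => hx x (by omega)⟩
  · rintro ⟨a, b, c, p, h1, h2, h3, h4, ha, hb, hc, hp, hg, g1, g2, g3, hx⟩
    exact ⟨a, by omega, b, by omega, c, by omega, p, by omega, h1, h2, h3, h4, hg, g1, g2, g3,
      fun x hx' => hx x (by omega)⟩

theorem primrec_isQ : PrimrecPred fun l : List ℕ => IsNS {x | x ∉ l} ∧ IsQ {x | x ∉ l} := by
  have h1 := comp2.and (comp (fun n => bd n + 1) (Primrec.succ.comp (primrec_pow 215)))
  refine h1.of_eq fun l => ?_
  rw [← isNS_iff, check_iff]
  refine and_congr_right fun hS => ?_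
  exact (crit_iff (mx l) (by unfold mx; omega) _ hS fun x hx hxl => by
    have := le_sum hxl
    omega).symm

end Pool.Agent.Qdec
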