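import Pool.Agent.Hhelper28.Quot.Reduce
import Pool.Agent.Qdec.Def

/-!
# The reduced triangle (helper60)  (module)

`inner` is a variant of `Pool.Hhelper28.Quot.reduce` which keeps more of the information obtained in its proof.

COMPLETE PAPER PROOF.  Copy the proof of `Pool.Hhelper28.Quot.reduce` (file `Hhelper28/Quot/Reduce.lean`) up to `hmem4`:
there are `α3, β3, γ2` and `i0` with `γ2 i0 < 0`, `0 ≤ γ2 j` for `j ≠ i0` (`hs0`, `hs1`), `0 ≤ β3 i0 ≤ c`,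
`0 ≤ α3 i0 ≤ c`, `c = - γ2 i0` (`hb0`, `ha0`), `hmem4`, and the bound `|t| ≤ 6 x` for every lattice point (`htb` with
`hshift`).  Then renumber the three forms with the transposition `σ = Equiv.swap 0 i0`:
`α' = α3 ∘ σ`, `β' = β3 ∘ σ`, `γ' = γ2 ∘ σ` (`σ 0 = i0`, `σ 1 ≠ i0`, `σ 2 ≠ i0` since `σ` is injective;
`∀ i, q (σ i)` is equivalent to `∀ i, q i` by `σ.surjective.forall`).
-/

set_option autoImplicit false

namespace Pool.Agent.Qdec

open Pool.Hhelper28.Quot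

theorem inner (α β γ : Fin 3 → ℤ) (hβ : ∑ i, β i = 0) (hγ : ∑ i, γ i = 0)
    (hδ : β 0 * γ 1 - β 1 * γ 0 ≠ 0) (h1 : ¬ Mem α β γ 1) :
    ∃ α' β' γ' : Fin 3 → ℤ, γ' 0 < 0 ∧ 0 ≤ γ' 1 ∧ 0 ≤ γ' 2 ∧ 0 ≤ α' 0 ∧ α' 0 ≤ -γ' 0 ∧
      0 ≤ β' 0 ∧ β' 0 ≤ -γ' 0 ∧ (∀ x, Mem α' β' γ' x ↔ Mem α β γ x) ∧
      ∀ x t m : ℤ, 0 < x → (∀ i, 0 ≤ α' i * x + β' i * t + γ' i * m) → |t| ≤ 6 * x := by
  obtain ⟨β1, γ1, g, h, hβ1, hγ1, hδ1, hR, hmem1⟩ := exists_reduced α β γ hβ hγ hδ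
  obtain ⟨k, l, hkl⟩ := exists_centre α β1 γ1 hβ1 hγ1 hδ1 hR
  set α1 : Fin 3 → ℤ := fun i => α i + k * β1 i + l * γ1 i with hα1
  have hsα1 : ∑ i, α1 i = ∑ i, α i := by
    rw [hα1, Finset.sum_add_distrib, Finset.sum_add_distrib, ← Finset.mul_sum, ← Finset.mul_sum,
      hβ1, hγ1]
    ring
  have hmem2 : ∀ x, Mem α1 β1 γ1 x ↔ Mem α β γ x := fun x =>
    (mem_trans α β1 γ1 k l x).trans (hmem1 x)
  have hc : ∀ i, |3 * α1 i - ∑ j, α1 j| ≤ 3 * h := by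
    intro i
    rw [hsα1]
    exact hkl i
  have hp : ∑ j, α1 j < 3 * h := by
    by_contra hcon
    rw [not_lt] at hcon
    apply h1
    rw [← hmem2]
    refine ⟨0, 0, fun i => ?_⟩
    have := (abs_le.1 (hc i)).1
    linarith
  -- sign structure
  have hne : ∃ i, γ1 i ≠ 0 := by
    by_contra hcon
    rw [not_exists] at hcon
    apply hδ1
    have a := not_not.1 (hcon 0)
    have b := not_not.1 (hcon 1)
    rw [a, b]
    ring
  obtain ⟨i0, hi0⟩ := sign_cases γ1 hγ1 hne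
  obtain ⟨γ2, hγ2, hδ2, hs0, hs1, hmem3, htb⟩ : ∃ γ2 : Fin 3 → ℤ, ∑ i, γ2 i = 0 ∧
      β1 0 * γ2 1 - β1 1 * γ2 0 ≠ 0 ∧ γ2 i0 < 0 ∧ (∀ j, j ≠ i0 → 0 ≤ γ2 j) ∧
      (∀ x, Mem α1 β1 γ2 x ↔ Mem α β γ x) ∧
      ∀ x t m : ℤ, 0 < x → (∀ i, 0 ≤ α1 i * x + β1 i * t + γ2 i * m) → |t| ≤ 6 * x := by
    rcases hi0 with ⟨a, b⟩ | ⟨a, b⟩
    · exact ⟨γ1, hγ1, hδ1, a, b, hmem2, fun x t m hx hf => t_bound hβ1 hγ1 hR hc hp hx hf⟩
    · refine ⟨fun i => -γ1 i, ?_, ?_, a, b, fun x => (mem_neg α1 β1 γ1 x).trans (hmem2 x), ?_⟩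
      · rw [Finset.sum_neg_distrib, hγ1, neg_zero]
      · intro h0
        apply hδ1
        linarith
      · intro x t m hx hf
        apply t_bound hβ1 hγ1 hR hc hp (m := -m) hx
        intro i
        have := hf i
        linarith
  -- shear
  set c : ℤ := -γ2 i0 with hcdef
  have hcpos : 0 < c := by rw [hcdef]; linarith
  set n : ℤ := β1 i0 / c with hn
  set l2 : ℤ := α1 i0 / c with hl2
  set β3 : Fin 3 → ℤ := fun i => β1 i + n * γ2 i with hβ3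
  set α3 : Fin 3 → ℤ := fun i => α1 i + l2 * γ2 i with hα3
  have hb0 : 0 ≤ β3 i0 ∧ β3 i0 ≤ c := by
    have e : β3 i0 = β1 i0 % c := by
      have := Int.emod_add_mul_ediv (β1 i0) c
      rw [hβ3]
      simp only
      have hg : γ2 i0 = -c := by rw [hcdef]; ring
      rw [hg]
      linarith
    rw [e]
    exact ⟨Int.emod_nonneg _ hcpos.ne', (Int.emod_lt_of_pos _ hcpos).le⟩
  have ha0 : 0 ≤ α3 i0 ∧ α3 i0 ≤ c := by
    have e : α3 i0 = α1 i0 % c := by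
      have := Int.emod_add_mul_ediv (α1 i0) c
      rw [hα3]
      simp only
      have hg : γ2 i0 = -c := by rw [hcdef]; ring
      rw [hg]
      linarith
    rw [e]
    exact ⟨Int.emod_nonneg _ hcpos.ne', (Int.emod_lt_of_pos _ hcpos).le⟩
  have hshift : ∀ x t m : ℤ, ∀ i, α3 i * x + β3 i * t + γ2 i * m =
      α1 i * x + β1 i * t + γ2 i * (m + l2 * x + n * t) := by
    intro x t m i
    rw [hα3, hβ3]
    ring
  have hmem4 : ∀ x, Mem α3 β3 γ2 x ↔ Mem α β γ x := by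
    intro x
    rw [← hmem3]
    constructor
    · rintro ⟨t, m, hf⟩
      refine ⟨t, m + l2 * x + n * t, fun i => ?_⟩
      rw [← hshift]
      exact hf i
    · rintro ⟨t, m, hf⟩
      refine ⟨t, m - l2 * x - n * t, fun i => ?_⟩
      rw [hshift]
      have e : m - l2 * x - n * t + l2 * x + n * t = m := by ring
      rw [e]
      exact hf i
  -- renumbering
  set σ : Equiv.Perm (Fin 3) := Equiv.swap 0 i0 with hσ
  have e0 : σ 0 = i0 := by rw [hσ, Equiv.swap_apply_left]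
  have e1 : σ 1 ≠ i0 := by
    rw [← e0]
    intro he
    exact absurd (σ.injective he) (by decide)
  have e2 : σ 2 ≠ i0 := by
    rw [← e0]
    intro he
    exact absurd (σ.injective he) (by decide)
  refine ⟨fun i => α3 (σ i), fun i => β3 (σ i), fun i => γ2 (σ i), ?_, ?_, ?_, ?_, ?_, ?_, ?_, ?_, ?_⟩
  · show γ2 (σ 0) < 0
    rw [e0]
    exact hs0
  · exact hs1 _ e1
  · exact hs1 _ e2
  · show 0 ≤ α3 (σ 0)
    rw [e0]
    exact ha0.1
  · show α3 (σ 0) ≤ -γ2 (σ 0)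
    rw [e0]
    exact ha0.2
  · show 0 ≤ β3 (σ 0)
    rw [e0]
    exact hb0.1
  · show β3 (σ 0) ≤ -γ2 (σ 0)
    rw [e0]
    exact hb0.2
  · intro x
    rw [← hmem4]
    constructor
    · rintro ⟨t, m, hf⟩
      refine ⟨t, m, σ.surjective.forall.2 hf⟩
    · rintro ⟨t, m, hf⟩
      exact ⟨t, m, fun i => hf (σ i)⟩
  · intro x t m hx hf
    have hf' : ∀ i, 0 ≤ α3 i * x + β3 i * t + γ2 i * m := σ.surjective.forall.2 hf
    apply htb x t (m + l2 * x + n * t) hx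
    intro i
    rw [← hshift]
    exact hf' i

end Pool.Agent.Qdec
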