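import Pool.Agent.Qdec.Def

/-!
# The forms of a quotient, and the box (helper60)  (module)

COMPLETE PAPER PROOFS.

`quot`.  Put `β = (B 0, -B 1, -B 2)`, `γ = (-w 0, w 1, w 2)`, `α = (A 0, -A 1, -A 2)`, `u = (u0, u1, u2)`: `val A B w i x t m`
is the coordinate `i` of `x α + t β + m γ`, `u = β × γ`, `u · α = pp`.
→: with `(i,j,k)` the three values, `u0 i + u1 j + u2 k = pp x` (`ring`).
←: let `e0 u0 + e2 u2 = 1` (`IsCoprime`), `e = (e0, 0, e2)`, and `c = (i,j,k) - x α`, so `u · c = 0`.  Put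
`t = det(e, c, γ)`, `m = det(e, β, c)` (rows; integer polynomials).  The identity
`det(e,β,γ) c = det(c,β,γ) e + det(e,c,γ) β + det(e,β,c) γ` together with `det(e,β,γ) = e · u = 1`, `det(c,β,γ) = c · u = 0` gives
`c = t β + m γ` (three `linear_combination`s), so `val A B w i x t m` are the numbers `i, j, k ≥ 0`.

`box`.  ←: `Fr.pos` and `le_of_lt`.  →: let all `val A B w i x t m ≥ 0`, `v i` these values.
`w 0 v 2 + w 2 v 0 = x (w 2 A 0 - w 0 A 2) - t u1 ≥ 0` and `Fr.right` (`w 2 A 0 - w 0 A 2 < 7 u1`) give `t u1 < 7 x u1`,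
so `t < 7 x` (`u1 > 0`, hypothesis `h1`).  `w 0 v 1 + w 1 v 0 = x (w 1 A 0 - w 0 A 1) + t u2 ≥ 0` and `Fr.left` give
`- 7 x u2 < t u2`, so `- 7 x < t`.  Let `m' = (A 0 x + B 0 t) / w 0` (`Int.ediv`): `m ≤ m'`, so
`v 1, v 2` do not decrease, `v 0 ≥ 0` remains, and `|A 0 x + B 0 t| < 2 w 0 x + 2 w 0 7 x = 16 x w 0` gives `|m'| ≤ 16 x`.
So `InBox N x t m'`, and `P i x t m'` for all `i`, because otherwise the value would be negative by `Fr.neg`.
-/

set_option autoImplicit false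

namespace Pool.Agent.Qdec

private theorem val0 (A B w : Fin 3 → ℤ) (x t m : ℤ) :
    val A B w 0 x t m = A 0 * x + B 0 * t - w 0 * m := by
  simp [val, sg]

private theorem val1 (A B w : Fin 3 → ℤ) (x t m : ℤ) :
    val A B w 1 x t m = w 1 * m - A 1 * x - B 1 * t := by
  simp [val, sg]
  ring

private theorem val2 (A B w : Fin 3 → ℤ) (x t m : ℤ) :
    val A B w 2 x t m = w 2 * m - A 2 * x - B 2 * t := by
  simp [val, sg]
  ring

private theorem forall3 (p : Fin 3 → Prop) (h0 : p 0) (h1 : p 1) (h2 : p 2) : ∀ i, p i := by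
  intro i
  fin_cases i
  · exact h0
  · exact h1
  · exact h2

theorem quot (A B w : Fin 3 → ℤ) (h : IsCoprime (u0 B w) (u2 B w)) (x : ℤ) :
    (∃ t m : ℤ, ∀ i, 0 ≤ val A B w i x t m) ↔
      ∃ i j k : ℤ, 0 ≤ i ∧ 0 ≤ j ∧ 0 ≤ k ∧ pp A B w * x = u0 B w * i + u1 B w * j + u2 B w * k := by
  constructor
  · rintro ⟨t, m, hv⟩
    refine ⟨val A B w 0 x t m, val A B w 1 x t m, val A B w 2 x t m, hv 0, hv 1, hv 2, ?_⟩
    rw [val0, val1, val2]
    simp only [pp, u0, u1, u2]
    ring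
  · rintro ⟨i, j, k, hi, hj, hk, hx⟩
    obtain ⟨e0, e2, he⟩ := h
    simp only [pp, u0, u1, u2] at hx he
    refine ⟨e0 * ((j + A 1 * x) * w 2 - (k + A 2 * x) * w 1) +
      e2 * ((i - A 0 * x) * w 1 + (j + A 1 * x) * w 0),
      e0 * (B 2 * (j + A 1 * x) - B 1 * (k + A 2 * x)) +
      e2 * (B 0 * (j + A 1 * x) + B 1 * (i - A 0 * x)), ?_⟩
    apply forall3
    · rw [val0]
      refine le_of_le_of_eq hi ?_
      linear_combination (-e0) * hx + (-(i - A 0 * x)) * he
    · rw [val1]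
      refine le_of_le_of_eq hj ?_
      linear_combination (-(j + A 1 * x)) * he
    · rw [val2]
      refine le_of_le_of_eq hk ?_
      linear_combination (-(k + A 2 * x)) * he + (-e2) * hx

theorem box (N : ℕ) (P : Fin 3 → ℤ → ℤ → ℤ → Prop) (A B w : Fin 3 → ℤ) (h : Fr N P A B w)
    (h1 : 0 < u1 B w) (h2 : 0 < u2 B w) (x : ℤ) (hx : 1 ≤ x) (hxN : x ≤ N) :
    (∃ t m : ℤ, ∀ i, 0 ≤ val A B w i x t m) ↔ ∃ t m, InBox N x t m ∧ ∀ i, P i x t m := by
  constructor
  · rintro ⟨t, m, hv⟩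
    have hw0 := h.wpos 0
    have hw1 := h.wpos 1
    have hw2 := h.wpos 2
    have v0 := hv 0
    have v1 := hv 1
    have v2 := hv 2
    rw [val0] at v0
    rw [val1] at v1
    rw [val2] at v2
    have hr := h.right
    have hl := h.left
    have e1 : 0 ≤ w 0 * (w 2 * m - A 2 * x - B 2 * t) + w 2 * (A 0 * x + B 0 * t - w 0 * m) :=
      add_nonneg (mul_nonneg hw0.le v2) (mul_nonneg hw2.le v0)
    have e2 : 0 ≤ w 0 * (w 1 * m - A 1 * x - B 1 * t) + w 1 * (A 0 * x + B 0 * t - w 0 * m) :=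
      add_nonneg (mul_nonneg hw0.le v1) (mul_nonneg hw1.le v0)
    have e3 : t * u1 B w < 7 * x * u1 B w := by
      have h3 : x * (w 2 * A 0 - w 0 * A 2) < x * (7 * u1 B w) := by
        apply mul_lt_mul_of_pos_left _ (by omega)
        simp only [u1]
        linarith
      have h4 : t * u1 B w ≤ x * (w 2 * A 0 - w 0 * A 2) := by
        simp only [u1]
        linarith
      linarith
    have e4 : (-t) * u2 B w < 7 * x * u2 B w := by
      have h3 : x * (w 1 * A 0 - w 0 * A 1) < x * (7 * u2 B w) := by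
        apply mul_lt_mul_of_pos_left _ (by omega)
        simp only [u2]
        linarith
      have h4 : (-t) * u2 B w ≤ x * (w 1 * A 0 - w 0 * A 1) := by
        simp only [u2]
        linarith
      linarith
    have ht1 : t < 7 * x := lt_of_mul_lt_mul_right e3 h1.le
    have ht2 : -t < 7 * x := lt_of_mul_lt_mul_right e4 h2.le
    have htabs : |t| ≤ 7 * x := abs_le.2 ⟨by linarith, by linarith⟩
    obtain ⟨m', hm'⟩ : ∃ m' : ℤ, m' = (A 0 * x + B 0 * t) / w 0 := ⟨_, rfl⟩
    have hmm : m ≤ m' := by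
      rw [hm', Int.le_ediv_iff_mul_le hw0]
      linarith
    have hm'0 : m' * w 0 ≤ A 0 * x + B 0 * t := by
      rw [hm']
      exact Int.ediv_mul_le _ hw0.ne'
    have hA : |A 0 * x| ≤ 2 * w 0 * x := by
      rw [abs_mul, abs_of_pos (show (0 : ℤ) < x by omega)]
      exact mul_le_mul_of_nonneg_right h.absA.le (by omega)
    have hB : |B 0 * t| ≤ 2 * w 0 * (7 * x) := by
      rw [abs_mul]
      exact mul_le_mul h.absB.le htabs (abs_nonneg _) (by omega)
    have hS : |A 0 * x + B 0 * t| ≤ 16 * x * w 0 := by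
      have := abs_add_le (A 0 * x) (B 0 * t)
      linarith
    have hS2 := abs_le.1 hS
    have hm1 : m' ≤ 16 * x := by
      have : m' * w 0 ≤ (16 * x) * w 0 := by linarith [hS2.2]
      exact le_of_mul_le_mul_right this hw0
    have hm2 : -(16 * x) ≤ m' := by
      rw [hm', Int.le_ediv_iff_mul_le hw0]
      linarith [hS2.1]
    have hbox : InBox N x t m' := ⟨hx, hxN, htabs, abs_le.2 ⟨hm2, hm1⟩⟩
    have hval : ∀ i, 0 ≤ val A B w i x t m' := by
      apply forall3
      · rw [val0]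
        linarith
      · rw [val1]
        have := mul_le_mul_of_nonneg_left hmm hw1.le
        linarith
      · rw [val2]
        have := mul_le_mul_of_nonneg_left hmm hw2.le
        linarith
    refine ⟨t, m', hbox, fun i => ?_⟩
    by_contra hP
    have h5 := h.neg i x t m' hbox hP
    have h6 := hval i
    omega
  · rintro ⟨t, m, hb, hP⟩
    exact ⟨t, m, fun i => (h.pos i x t m hb (hP i)).le⟩

end Pool.Agent.Qdec
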