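import Mathlib

/-!
# Small integer vectors with the same signs (helper60)  (module, Mathlib only)

`lp`: for every `Y ∈ ℚ^d` there is `z ∈ ℤ^d` with `|z i| ≤ d! M^d` such that `r · Y > 0 → r · z > 0` for all integer
vectors `r` with entries bounded by `M`.

COMPLETE PAPER PROOF.
0. Let `R` be the set of the integer vectors `r` with `|r i| ≤ M` and `r · Y > 0`: a finite set (`Set.Finite`; e.g. image
of / subset of `Set.pi univ (Icc (-M) M)`, `Set.Finite.pi`).  Multiply `Y` by a large positive rational so that `r · Y ≥ 1`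
for all `r ∈ R` (each `r · Y` is a positive rational; finite set; take `c = 1 / min`, or multiply by the common
denominator `q` of `Y`: `r · (q Y)` is a positive integer, hence `≥ 1`; this is the simplest).  Call `Feas Y` the statement `∀ r ∈ R, 1 ≤ r · Y`.
1. Claim, by induction on `k ≤ d`: there are `Y : Fin d → ℚ` with `Feas Y` and `f : Fin k → (Fin d → ℤ)`
such that the vectors `f j` (cast to `ℚ`) are linearly independent over `ℚ`, all entries are bounded by `M` in absolute
value, and `f j · Y = 0` or `f j · Y = 1` for each `j`.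
   `k = 0`: trivial.  Step `k → k+1` for `k < d`: there is `v ≠ 0` in `ℚ^d` with `f j · v = 0` for all `j` (rank less than
`d`).  Choose `i` with `v i ≠ 0` and let `s = - Y i / v i`, so that `Y + s v` has coordinate `i` equal to `0`.
   Case A: `Feas (Y + s v)`: take `Y' = Y + s v` and the new vector `e_i` (`Pi.single i 1`, entries `≤ 1 ≤ M`),
`e_i · Y' = 0`.
   Case B: let `Rb` be the nonempty finite set of the `r ∈ R` with `r · (Y + s v) < 1`, and for `r ∈ Rb` let
`θ r = (r·Y - 1) / (r·Y - r·(Y + s v)) ∈ [0, 1)`, so that `r · (Y + θ r s v) = 1`.  Choose `r ∈ Rb` with the least `θ r`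
(`Set.Finite.exists_minimal_wrt`/`Finset.exists_min_image`), `Y' = Y + θ r s v`.  `Feas Y'`: for `r' ∈ Rb` because `θ r ≤ θ r'` and `r' · Y` decreases along the
segment; for `r' ∈ R \ Rb` because `r' · Y'` is a convex combination of two numbers `≥ 1`.  New vector `r`, `r · Y' = 1`.
   In both cases `f j · Y' = f j · Y` because `f j · v = 0`, and the new vector `g` satisfies `g · v ≠ 0` (`v i ≠ 0`, resp.
`r·Y ≠ r·(Y + s v)`), so it is not in the span of the `f j` (all of the span is orthogonal to `v`):
`linearIndependent_fin_cons` (or `linearIndependent_finCons`).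
2. `k = d`: let `F = Matrix.of f` (integer `d × d` matrix), `b j = f j · Y ∈ {0, 1}` as integers.  `det F ≠ 0` (linear
independence of the rows, over `ℚ`; `Matrix.linearIndependent_rows_iff_isUnit`, `Int.cast_det`/`RingHom.map_det`).  Let
`z = sign (det F) • F.cramer b`.  As `F.mulVec Y = b` over `ℚ`, `F.cramer b = det F • Y` over `ℚ` (`Matrix.mulVec_cramer`
and injectivity of `F`, or `adjugate_mul`).  So `z = |det F| Y` and `r · z = |det F| (r · Y) ≥ |det F| > 0` for
`r ∈ R`.  Bound: `|cramer F b i| = |det (F.updateCol i b)| ≤ d! M^d` by `Matrix.det_le` (absolute value `AbsoluteValue.abs` on `ℤ`) as all entries are at most `M`.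
-/

set_option autoImplicit false

namespace Pool.Agent.Qdec

open Finset Matrix

private def dot {d : ℕ} (r : Fin d → ℤ) (Y : Fin d → ℚ) : ℚ := ∑ i, (r i : ℚ) * Y i

private lemma dot_add_smul {d : ℕ} (r : Fin d → ℤ) (Y v : Fin d → ℚ) (t : ℚ) :
    dot r (fun i => Y i + t * v i) = dot r Y + t * dot r v := by
  unfold dot
  rw [Finset.mul_sum, ← Finset.sum_add_distrib]
  apply Finset.sum_congr rfl
  intro i _
  ring

private lemma scale {d : ℕ} (Y : Fin d → ℚ) :
    ∃ q : ℕ, 0 < q ∧ ∀ i, ∃ m : ℤ, (m : ℚ) = (q : ℚ) * Y i := by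
  refine ⟨∏ i, (Y i).den, Finset.prod_pos (fun i _ => (Y i).den_pos), ?_⟩
  intro i
  refine ⟨((∏ j ∈ univ.erase i, (Y j).den : ℕ) : ℤ) * (Y i).num, ?_⟩
  rw [← Finset.mul_prod_erase univ (fun j => (Y j).den) (Finset.mem_univ i)]
  push_cast
  have h : Y i * ((Y i).den : ℚ) = ((Y i).num : ℚ) := Rat.mul_den_eq_num (Y i)
  rw [← h]
  ring

private lemma exists_orth {d k : ℕ} (hk : k < d) (f : Fin k → Fin d → ℤ) :
    ∃ v : Fin d → ℚ, v ≠ 0 ∧ ∀ j, dot (f j) v = 0 := by
  let A : Matrix (Fin k) (Fin d) ℚ := Matrix.of (fun j i => (f j i : ℚ))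
  have h : LinearMap.ker (Matrix.mulVecLin A) ≠ ⊥ := by
    apply LinearMap.ker_ne_bot_of_finrank_lt
    simpa using hk
  obtain ⟨v, hv, hv0⟩ := (Submodule.ne_bot_iff _).1 h
  refine ⟨v, hv0, ?_⟩
  intro j
  have h1 : A *ᵥ v = 0 := by simpa using hv
  have h2 := congrFun h1 j
  simpa [A, Matrix.mulVec, dotProduct, dot] using h2

private lemma cons_indep {d k : ℕ} (f : Fin k → Fin d → ℤ) (g : Fin d → ℤ) (v : Fin d → ℚ)
    (hf : LinearIndependent ℚ (fun j => (fun i => (f j i : ℚ))))
    (hv : ∀ j, dot (f j) v = 0) (hg : dot g v ≠ 0) :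
    LinearIndependent ℚ (fun j => (fun i => ((Fin.cons g f : Fin (k + 1) → Fin d → ℤ) j i : ℚ))) := by
  have e : (fun j => (fun i => ((Fin.cons g f : Fin (k + 1) → Fin d → ℤ) j i : ℚ)))
      = (Fin.cons (fun i => (g i : ℚ)) (fun j => (fun i => (f j i : ℚ))) :
          Fin (k + 1) → Fin d → ℚ) := by
    funext j
    refine Fin.cases ?_ ?_ j
    · simp
    · intro j; simp
  rw [e, linearIndependent_finCons]
  refine ⟨hf, ?_⟩
  intro hmem
  apply hg
  have key : ∀ x ∈ Submodule.span ℚ (Set.range (fun j => (fun i => (f j i : ℚ)))),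
      ∑ i, x i * v i = 0 := by
    intro x hx
    induction hx using Submodule.span_induction with
    | mem x hx =>
      obtain ⟨j, rfl⟩ := hx
      exact hv j
    | zero => simp
    | add x y _ _ hx hy =>
      simp only [Pi.add_apply, add_mul, Finset.sum_add_distrib, hx, hy, add_zero]
    | smul a x _ hx =>
      simp only [Pi.smul_apply, smul_eq_mul, mul_assoc, ← Finset.mul_sum, hx, mul_zero]
  exact key _ hmem

private lemma stepk {d M : ℕ} (hM : 1 ≤ M) (R : Set (Fin d → ℤ)) (hR : R.Finite)
    (hRM : ∀ r ∈ R, ∀ i, |r i| ≤ M) (Y0 : Fin d → ℚ) (hY0 : ∀ r ∈ R, 1 ≤ dot r Y0) :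
    ∀ k ≤ d, ∃ (Y : Fin d → ℚ) (f : Fin k → Fin d → ℤ), (∀ r ∈ R, 1 ≤ dot r Y) ∧
      LinearIndependent ℚ (fun j => (fun i => (f j i : ℚ))) ∧
      (∀ j i, |f j i| ≤ M) ∧ ∀ j, dot (f j) Y = 0 ∨ dot (f j) Y = 1 := by
  intro k
  induction k with
  | zero =>
    intro _
    exact ⟨Y0, fun j => j.elim0, hY0, linearIndependent_empty_type, fun j => j.elim0,
      fun j => j.elim0⟩
  | succ k ih =>
    intro hk
    obtain ⟨Y, f, hfe, hli, hb, h01⟩ := ih (by omega)
    obtain ⟨v, hv0, hv⟩ := exists_orth (show k < d by omega) f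
    obtain ⟨i, hi⟩ : ∃ i, v i ≠ 0 := by
      by_contra hcon
      push Not at hcon
      exact hv0 (funext hcon)
    have hold : ∀ (t : ℚ) (j : Fin k), dot (f j) (fun i => Y i + t * v i) = dot (f j) Y := by
      intro t j
      rw [dot_add_smul, hv j, mul_zero, add_zero]
    set s : ℚ := - Y i / v i with hs
    by_cases hA : ∀ r ∈ R, 1 ≤ dot r (fun i => Y i + s * v i)
    · have hgv : ∀ w : Fin d → ℚ, dot (Pi.single i 1) w = w i := by
        intro w
        unfold dot
        rw [Finset.sum_eq_single i]
        · simp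
        · intro j _ hj
          simp [Pi.single_eq_of_ne hj]
        · intro h; exact absurd (Finset.mem_univ i) h
      refine ⟨fun i => Y i + s * v i, Fin.cons (Pi.single i 1) f, hA, ?_, ?_, ?_⟩
      · apply cons_indep f _ v hli hv
        rw [hgv]; exact hi
      · intro j
        refine Fin.cases ?_ ?_ j
        · intro l
          simp only [Fin.cons_zero]
          by_cases hl : l = i
          · subst hl
            simp only [Pi.single_eq_same, abs_one]
            exact_mod_cast hM
          · rw [Pi.single_eq_of_ne hl]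
            simp
        · intro j l
          simp only [Fin.cons_succ]
          exact hb j l
      · intro j
        refine Fin.cases ?_ ?_ j
        · left
          simp only [Fin.cons_zero]
          rw [hgv]
          rw [hs]
          field_simp
          ring
        · intro j
          simp only [Fin.cons_succ]
          rw [hold]
          exact h01 j
    · push Not at hA
      obtain ⟨r0, hr0, hr0'⟩ := hA
      have hne : (hR.toFinset.filter (fun r => dot r (fun i => Y i + s * v i) < 1)).Nonempty :=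
        ⟨r0, by simp [hr0, hr0']⟩
      obtain ⟨r, hr, hmin⟩ := Finset.exists_min_image _
        (fun r => (dot r Y - 1) / (-(s * dot r v))) hne
      simp only [Finset.mem_filter, Set.Finite.mem_toFinset] at hr hmin
      obtain ⟨hrR, hr1⟩ := hr
      rw [dot_add_smul] at hr1
      have hrY := hfe r hrR
      have hneg : s * dot r v < 0 := by linarith
      set t : ℚ := (dot r Y - 1) / (-(s * dot r v)) with ht
      have hpos : 0 < -(s * dot r v) := by linarith
      have ht0 : 0 ≤ t := div_nonneg (by linarith) hpos.le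
      have ht1 : t ≤ 1 := by
        rw [ht, div_le_one hpos]; linarith
      have htr : t * (s * dot r v) = 1 - dot r Y := by
        rw [ht]
        have : (-(s * dot r v)) ≠ 0 := hpos.ne'
        rw [div_mul_eq_mul_div, div_eq_iff this]
        ring
      refine ⟨fun i => Y i + (t * s) * v i, Fin.cons r f, ?_, ?_, ?_, ?_⟩
      · intro r' hr'
        rw [dot_add_smul]
        have h1 := hfe r' hr'
        have e : t * s * dot r' v = t * (s * dot r' v) := by ring
        rw [e]
        by_cases hc : 0 ≤ s * dot r' v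
        · have := mul_nonneg ht0 hc
          linarith
        · push Not at hc
          by_cases hb' : dot r' (fun i => Y i + s * v i) < 1
          · have h2 := hmin r' ⟨hr', hb'⟩
            have hpos' : 0 < -(s * dot r' v) := by linarith
            rw [le_div_iff₀ hpos'] at h2
            linarith
          · push Not at hb'
            rw [dot_add_smul] at hb'
            have : s * dot r' v ≤ t * (s * dot r' v) := by nlinarith
            linarith
      · apply cons_indep f _ v hli hv
        intro h0
        rw [h0, mul_zero] at hneg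
        exact lt_irrefl _ hneg
      · intro j
        refine Fin.cases ?_ ?_ j
        · intro l
          simp only [Fin.cons_zero]
          exact hRM r hrR l
        · intro j l
          simp only [Fin.cons_succ]
          exact hb j l
      · intro j
        refine Fin.cases ?_ ?_ j
        · right
          simp only [Fin.cons_zero]
          rw [dot_add_smul]
          have e : t * s * dot r v = t * (s * dot r v) := by ring
          rw [e, htr]
          ring
        · intro j
          simp only [Fin.cons_succ]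
          rw [hold]
          exact h01 j

theorem lp (d M : ℕ) (hM : 1 ≤ M) (Y : Fin d → ℚ) :
    ∃ z : Fin d → ℤ, (∀ i, |z i| ≤ (d.factorial : ℤ) * (M : ℤ) ^ d) ∧
      ∀ r : Fin d → ℤ, (∀ i, |r i| ≤ M) → 0 < ∑ i, (r i : ℚ) * Y i → 0 < ∑ i, r i * z i := by
  classical
  obtain ⟨q, hq, hm⟩ := scale Y
  choose m hm using hm
  set R : Set (Fin d → ℤ) := {r | (∀ i, |r i| ≤ M) ∧ 0 < dot r Y} with hRdef
  have hRfin : R.Finite := by
    apply Set.Finite.subset (Set.Finite.pi' (fun _ : Fin d => Set.finite_Icc (-(M : ℤ)) (M : ℤ)))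
    intro r hr i
    exact Set.mem_Icc.2 (abs_le.1 (hr.1 i))
  have hY0 : ∀ r ∈ R, 1 ≤ dot r (fun i => (q : ℚ) * Y i) := by
    intro r hr
    have h1 : dot r (fun i => (q : ℚ) * Y i) = ((∑ i, r i * m i : ℤ) : ℚ) := by
      unfold dot
      push_cast
      apply Finset.sum_congr rfl
      intro i _
      rw [hm i]
    have h2 : dot r (fun i => (q : ℚ) * Y i) = q * dot r Y := by
      unfold dot
      rw [Finset.mul_sum]
      apply Finset.sum_congr rfl
      intro i _
      ring
    have h3 : 0 < dot r (fun i => (q : ℚ) * Y i) := by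
      rw [h2]
      exact mul_pos (by exact_mod_cast hq) hr.2
    rw [h1] at h3 ⊢
    have h4 : (0 : ℤ) < ∑ i, r i * m i := by exact_mod_cast h3
    have h5 : (1 : ℤ) ≤ ∑ i, r i * m i := h4
    exact_mod_cast h5
  obtain ⟨X, f, hX, hli, hb, h01⟩ := stepk hM R hRfin (fun r hr => hr.1) _ hY0 d le_rfl
  have hbex : ∀ j, ∃ c : ℤ, |c| ≤ M ∧ (c : ℚ) = dot (f j) X := by
    intro j
    rcases h01 j with h | h
    · exact ⟨0, by simp, by rw [h]; simp⟩
    · exact ⟨1, by simpa using hM, by rw [h]; simp⟩
  choose c hcM hc using hbex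
  set F : Matrix (Fin d) (Fin d) ℤ := Matrix.of f with hF
  set F' : Matrix (Fin d) (Fin d) ℚ := F.map (fun x => (x : ℚ)) with hF'
  have hdet' : ((F.det : ℤ) : ℚ) = F'.det := by
    rw [hF']
    exact Int.cast_det F
  have hdetne : F'.det ≠ 0 := by
    have hu : IsUnit F' := by
      rw [← Matrix.linearIndependent_rows_iff_isUnit]
      exact hli
    exact ((Matrix.isUnit_iff_isUnit_det F').1 hu).ne_zero
  have hdetZ : F.det ≠ 0 := by
    intro h
    apply hdetne
    rw [← hdet', h]
    simp
  have hmv : F' *ᵥ X = fun j => (c j : ℚ) := by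
    funext j
    rw [hc j]
    rfl
  have hadj : F'.adjugate = F.adjugate.map (fun x => (x : ℚ)) := by
    have := RingHom.map_adjugate (Int.castRingHom ℚ) F
    rw [hF']
    exact this.symm
  have hcast : ∀ i, (((F.adjugate *ᵥ c) i : ℤ) : ℚ) = F.det * X i := by
    intro i
    have h1 : (((F.adjugate *ᵥ c) i : ℤ) : ℚ) = (F'.adjugate *ᵥ (fun j => (c j : ℚ))) i := by
      rw [hadj]
      simp [Matrix.mulVec, dotProduct]
    rw [h1, ← hmv, Matrix.mulVec_mulVec, Matrix.adjugate_mul, Matrix.smul_mulVec, Matrix.one_mulVec,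
      hdet']
    simp
  refine ⟨fun i => F.det.sign * (F.adjugate *ᵥ c) i, ?_, ?_⟩
  · intro i
    have h1 : |(F.adjugate *ᵥ c) i| ≤ (d.factorial : ℤ) * (M : ℤ) ^ d := by
      rw [← Matrix.cramer_eq_adjugate_mulVec, Matrix.cramer_apply]
      have := Matrix.det_le (A := F.updateCol i c) (abv := (AbsoluteValue.abs : AbsoluteValue ℤ ℤ))
        (x := (M : ℤ)) (by
          intro a b
          rw [Matrix.updateCol_apply]
          split_ifs
          · exact hcM a
          · exact hb a b)
      simpa using this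
    have h2 : |F.det.sign| ≤ 1 := by
      rcases lt_trichotomy F.det 0 with h | h | h
      · rw [Int.sign_eq_neg_one_of_neg h]; simp
      · rw [h]; simp
      · rw [Int.sign_eq_one_of_pos h]; simp
    rw [abs_mul]
    calc |F.det.sign| * |(F.adjugate *ᵥ c) i| ≤ 1 * |(F.adjugate *ᵥ c) i| :=
          mul_le_mul_of_nonneg_right h2 (abs_nonneg _)
      _ = |(F.adjugate *ᵥ c) i| := one_mul _
      _ ≤ _ := h1
  · intro r hr hpos
    have hrR : r ∈ R := ⟨hr, hpos⟩
    have h1 := hX r hrR
    have h2 : ((∑ i, r i * (F.det.sign * (F.adjugate *ᵥ c) i) : ℤ) : ℚ)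
        = ((F.det.sign * F.det : ℤ) : ℚ) * dot r X := by
      push_cast
      unfold dot
      rw [Finset.mul_sum]
      apply Finset.sum_congr rfl
      intro i _
      have hd : (F.map (fun x => (x : ℚ))).det = ((F.det : ℤ) : ℚ) := hdet'.symm
      rw [hcast i, hd]
      ring
    have h3 : (0 : ℤ) < F.det.sign * F.det := by
      rw [Int.sign_mul_self_eq_abs]
      exact abs_pos.2 hdetZ
    have h4 : (0 : ℚ) < ((F.det.sign * F.det : ℤ) : ℚ) * dot r X :=
      mul_pos (by exact_mod_cast h3) (by linarith)
    rw [← h2] at h4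
    exact_mod_cast h4

end Pool.Agent.Qdec
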