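import Pool.Agent.Qdec.Def

set_option autoImplicit false

/-!
# Exactly three generators (helper60)  (module)

COMPLETE PAPER PROOFS.

`primes`.  Choose primes `q0 ∈ (U, 2U]`, `q1 ∈ (2U, 4U]`, `q2 ∈ (4U, 8U]` (`Nat.exists_prime_lt_and_le_two_mul`), so they are distinct
and larger than `a, b, c` (hence coprime to them).  Put `a' = q1 q2 a`, `b' = q0 q2 b`, `c' = q0 q1 c`, `p' = q0 q1 q2 p`.
Bounds: `q1 q2 ≤ 32 U²` etc., `q0 q1 q2 ≤ 64 U³`.
gcd: a prime `r` dividing `a', b', c'`: if `r = q0` it divides `q1 q2 a`, impossible; the same for `q1, q2`; otherwise it divides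
`a, b, c`, contradiction.  `a' ∉ ⟨b', c'⟩`: `q0` would divide `q1 q2 a`.  The same for the others.
Equivalence: ← multiply the coefficients by `q0, q1, q2`.  →: if `p' x = a' i + b' j + c' k` then `q0 ∣ q1 q2 a i`, so
`q0 ∣ i`; similarly `q1 ∣ j`, `q2 ∣ k`; write `i = q0 i'` etc. and cancel `q0 q1 q2`.

`emb`.  `T = {n | Gen a b c n}`.  `IsNS T`: `0` and sums clear; the complement is finite: with `s = {a, b, c}`,
`Nat.setGcd s` divides `a, b, c`, so it is `1`, and `Nat.exists_mem_closure_of_ge` gives `n` with `m ∈ closure s` for all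
`m ≥ n`; `closure {a,b,c}` is `T` (`AddSubmonoid.closure_le`, the submonoid of all `Gen a b c`, and
`a i + b j + c k ∈ closure`).  `A = {a, b, c}` has three elements: `a = b` would give `Gen2 b c a` (`i = 1, j = 0`), and so on.
Minimal: a finite set `B ⊂ A` misses `a`, `b` or `c`; if it misses `a` then `B ⊆ {b, c}` and `closure B ⊆ {n | Gen2 b c n}`, which
does not contain `a ∈ T`.  The other cases are the same.
-/

namespace Pool.Agent.Qdec

theorem primes (a b c p U : ℕ) (ha : 0 < a) (hb : 0 < b) (hc : 0 < c) (hp : 0 < p)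
    (haU : a ≤ U) (hbU : b ≤ U) (hcU : c ≤ U) (hg : Nat.gcd (Nat.gcd a b) c = 1) :
    ∃ a' b' c' p' : ℕ, 0 < a' ∧ 0 < b' ∧ 0 < c' ∧ 0 < p' ∧ a' ≤ 32 * U ^ 3 ∧ b' ≤ 32 * U ^ 3 ∧
      c' ≤ 32 * U ^ 3 ∧ p' ≤ 64 * U ^ 3 * p ∧ Nat.gcd (Nat.gcd a' b') c' = 1 ∧
      ¬ Gen2 b' c' a' ∧ ¬ Gen2 a' c' b' ∧ ¬ Gen2 a' b' c' ∧
      ∀ x, Gen a' b' c' (p' * x) ↔ Gen a b c (p * x) := by
  have hU : U ≠ 0 := by omega
  obtain ⟨q0, hq0, l0, u0⟩ := Nat.exists_prime_lt_and_le_two_mul U hU
  obtain ⟨q1, hq1, l1, u1⟩ := Nat.exists_prime_lt_and_le_two_mul (2 * U) (by omega)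
  obtain ⟨q2, hq2, l2, u2⟩ := Nat.exists_prime_lt_and_le_two_mul (4 * U) (by omega)
  have n01 : q0 ≠ q1 := by omega
  have n02 : q0 ≠ q2 := by omega
  have n12 : q1 ≠ q2 := by omega
  have nd : ∀ q : ℕ, U < q → ∀ z : ℕ, 0 < z → z ≤ U → ¬ q ∣ z := by
    intro q hq z hz hzU h
    have := Nat.le_of_dvd hz h
    omega
  have e01 : ¬ q0 ∣ q1 := fun h => n01 ((Nat.prime_dvd_prime_iff_eq hq0 hq1).1 h)
  have e02 : ¬ q0 ∣ q2 := fun h => n02 ((Nat.prime_dvd_prime_iff_eq hq0 hq2).1 h)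
  have e10 : ¬ q1 ∣ q0 := fun h => n01 ((Nat.prime_dvd_prime_iff_eq hq1 hq0).1 h).symm
  have e12 : ¬ q1 ∣ q2 := fun h => n12 ((Nat.prime_dvd_prime_iff_eq hq1 hq2).1 h)
  have e20 : ¬ q2 ∣ q0 := fun h => n02 ((Nat.prime_dvd_prime_iff_eq hq2 hq0).1 h).symm
  have e21 : ¬ q2 ∣ q1 := fun h => n12 ((Nat.prime_dvd_prime_iff_eq hq2 hq1).1 h).symm
  have ea : ¬ q0 ∣ q1 * q2 * a := by
    intro h
    rcases (Nat.Prime.dvd_mul hq0).1 h with h | h
    · rcases (Nat.Prime.dvd_mul hq0).1 h with h | h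
      · exact e01 h
      · exact e02 h
    · exact nd q0 (by omega) a ha haU h
  have eb : ¬ q1 ∣ q0 * q2 * b := by
    intro h
    rcases (Nat.Prime.dvd_mul hq1).1 h with h | h
    · rcases (Nat.Prime.dvd_mul hq1).1 h with h | h
      · exact e10 h
      · exact e12 h
    · exact nd q1 (by omega) b hb hbU h
  have ec : ¬ q2 ∣ q0 * q1 * c := by
    intro h
    rcases (Nat.Prime.dvd_mul hq2).1 h with h | h
    · rcases (Nat.Prime.dvd_mul hq2).1 h with h | h
      · exact e20 h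
      · exact e21 h
    · exact nd q2 (by omega) c hc hcU h
  have p0 : 0 < q0 := hq0.pos
  have p1 : 0 < q1 := hq1.pos
  have p2 : 0 < q2 := hq2.pos
  refine ⟨q1 * q2 * a, q0 * q2 * b, q0 * q1 * c, q0 * q1 * q2 * p, by positivity, by positivity,
    by positivity, by positivity, ?_, ?_, ?_, ?_, ?_, ?_, ?_, ?_, ?_⟩
  · calc q1 * q2 * a ≤ (2 * (2 * U)) * (2 * (4 * U)) * U := by gcongr
      _ = 32 * U ^ 3 := by ring
  · calc q0 * q2 * b ≤ (2 * U) * (2 * (4 * U)) * U := by gcongr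
      _ = 16 * U ^ 3 := by ring
      _ ≤ 32 * U ^ 3 := by gcongr; norm_num
  · calc q0 * q1 * c ≤ (2 * U) * (2 * (2 * U)) * U := by gcongr
      _ = 8 * U ^ 3 := by ring
      _ ≤ 32 * U ^ 3 := by gcongr; norm_num
  · calc q0 * q1 * q2 * p ≤ (2 * U) * (2 * (2 * U)) * (2 * (4 * U)) * p := by gcongr
      _ = 64 * U ^ 3 * p := by ring
  · by_contra h
    obtain ⟨r, hr, hrd⟩ := Nat.exists_prime_and_dvd h
    have hra : r ∣ q1 * q2 * a := (hrd.trans (Nat.gcd_dvd_left _ _)).trans (Nat.gcd_dvd_left _ _)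
    have hrb : r ∣ q0 * q2 * b := (hrd.trans (Nat.gcd_dvd_left _ _)).trans (Nat.gcd_dvd_right _ _)
    have hrc : r ∣ q0 * q1 * c := hrd.trans (Nat.gcd_dvd_right _ _)
    have r0 : ¬ r ∣ q0 := by
      intro h
      rw [(Nat.prime_dvd_prime_iff_eq hr hq0).1 h] at hra
      exact ea hra
    have r1 : ¬ r ∣ q1 := by
      intro h
      rw [(Nat.prime_dvd_prime_iff_eq hr hq1).1 h] at hrb
      exact eb hrb
    have r2 : ¬ r ∣ q2 := by
      intro h
      rw [(Nat.prime_dvd_prime_iff_eq hr hq2).1 h] at hrc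
      exact ec hrc
    have da : r ∣ a := by
      rcases (Nat.Prime.dvd_mul hr).1 hra with h | h
      · rcases (Nat.Prime.dvd_mul hr).1 h with h | h
        · exact absurd h r1
        · exact absurd h r2
      · exact h
    have db : r ∣ b := by
      rcases (Nat.Prime.dvd_mul hr).1 hrb with h | h
      · rcases (Nat.Prime.dvd_mul hr).1 h with h | h
        · exact absurd h r0
        · exact absurd h r2
      · exact h
    have dc : r ∣ c := by
      rcases (Nat.Prime.dvd_mul hr).1 hrc with h | h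
      · rcases (Nat.Prime.dvd_mul hr).1 h with h | h
        · exact absurd h r0
        · exact absurd h r1
      · exact h
    have : r ∣ 1 := by
      rw [← hg]
      exact Nat.dvd_gcd (Nat.dvd_gcd da db) dc
    exact hr.one_lt.ne' (Nat.dvd_one.1 this)
  · rintro ⟨i, j, h⟩
    apply ea
    rw [h]
    exact dvd_add (Dvd.intro (q2 * b * i) (by ring)) (Dvd.intro (q1 * c * j) (by ring))
  · rintro ⟨i, j, h⟩
    apply eb
    rw [h]
    exact dvd_add (Dvd.intro (q2 * a * i) (by ring)) (Dvd.intro (q0 * c * j) (by ring))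
  · rintro ⟨i, j, h⟩
    apply ec
    rw [h]
    exact dvd_add (Dvd.intro (q1 * a * i) (by ring)) (Dvd.intro (q0 * b * j) (by ring))
  · intro x
    constructor
    · rintro ⟨i, j, k, h⟩
      have hi : q0 ∣ i := by
        have h1 : q0 ∣ q1 * q2 * a * i + (q0 * q2 * b * j + q0 * q1 * c * k) := by
          rw [← add_assoc, ← h]
          exact Dvd.intro (q1 * q2 * p * x) (by ring)
        have h2 : q0 ∣ q0 * q2 * b * j + q0 * q1 * c * k :=
          dvd_add (Dvd.intro (q2 * b * j) (by ring)) (Dvd.intro (q1 * c * k) (by ring))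
        have h3 := (Nat.dvd_add_left h2).1 h1
        rcases (Nat.Prime.dvd_mul hq0).1 h3 with h4 | h4
        · exact absurd h4 ea
        · exact h4
      have hj : q1 ∣ j := by
        have h1 : q1 ∣ q0 * q2 * b * j + (q1 * q2 * a * i + q0 * q1 * c * k) := by
          have : q0 * q2 * b * j + (q1 * q2 * a * i + q0 * q1 * c * k) =
            q0 * q1 * q2 * p * x := by rw [h]; ring
          rw [this]
          exact Dvd.intro (q0 * q2 * p * x) (by ring)
        have h2 : q1 ∣ q1 * q2 * a * i + q0 * q1 * c * k :=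
          dvd_add (Dvd.intro (q2 * a * i) (by ring)) (Dvd.intro (q0 * c * k) (by ring))
        have h3 := (Nat.dvd_add_left h2).1 h1
        rcases (Nat.Prime.dvd_mul hq1).1 h3 with h4 | h4
        · exact absurd h4 eb
        · exact h4
      have hk : q2 ∣ k := by
        have h1 : q2 ∣ q0 * q1 * c * k + (q1 * q2 * a * i + q0 * q2 * b * j) := by
          have : q0 * q1 * c * k + (q1 * q2 * a * i + q0 * q2 * b * j) =
            q0 * q1 * q2 * p * x := by rw [h]; ring
          rw [this]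
          exact Dvd.intro (q0 * q1 * p * x) (by ring)
        have h2 : q2 ∣ q1 * q2 * a * i + q0 * q2 * b * j :=
          dvd_add (Dvd.intro (q1 * a * i) (by ring)) (Dvd.intro (q0 * b * j) (by ring))
        have h3 := (Nat.dvd_add_left h2).1 h1
        rcases (Nat.Prime.dvd_mul hq2).1 h3 with h4 | h4
        · exact absurd h4 ec
        · exact h4
      obtain ⟨i', rfl⟩ := hi
      obtain ⟨j', rfl⟩ := hj
      obtain ⟨k', rfl⟩ := hk
      refine ⟨i', j', k', ?_⟩
      have hq : 0 < q0 * q1 * q2 := by positivity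
      refine Nat.eq_of_mul_eq_mul_left hq ?_
      calc q0 * q1 * q2 * (p * x) = q0 * q1 * q2 * p * x := by ring
        _ = q1 * q2 * a * (q0 * i') + q0 * q2 * b * (q1 * j') + q0 * q1 * c * (q2 * k') := h
        _ = q0 * q1 * q2 * (a * i' + b * j' + c * k') := by ring
    · rintro ⟨i, j, k, h⟩
      refine ⟨q0 * i, q1 * j, q2 * k, ?_⟩
      calc q0 * q1 * q2 * p * x = q0 * q1 * q2 * (p * x) := by ring
        _ = q0 * q1 * q2 * (a * i + b * j + c * k) := by rw [h]
        _ = _ := by ring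

private theorem primes_closure (a b c : ℕ) :
    (AddSubmonoid.closure ({a, b, c} : Set ℕ) : Set ℕ) = {n | Gen a b c n} := by
  ext n
  constructor
  · intro hn
    let M : AddSubmonoid ℕ :=
      { carrier := {n | Gen a b c n}
        zero_mem' := ⟨0, 0, 0, by simp⟩
        add_mem' := by
          rintro x y ⟨i, j, k, hx⟩ ⟨i', j', k', hy⟩
          exact ⟨i + i', j + j', k + k', by rw [hx, hy]; ring⟩ }
    have : AddSubmonoid.closure ({a, b, c} : Set ℕ) ≤ M := by
      rw [AddSubmonoid.closure_le]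
      rintro x (rfl | rfl | rfl)
      · exact ⟨1, 0, 0, by simp⟩
      · exact ⟨0, 1, 0, by simp⟩
      · exact ⟨0, 0, 1, by simp⟩
    exact this hn
  · rintro ⟨i, j, k, rfl⟩
    have ha : a ∈ AddSubmonoid.closure ({a, b, c} : Set ℕ) := AddSubmonoid.subset_closure (by simp)
    have hb : b ∈ AddSubmonoid.closure ({a, b, c} : Set ℕ) := AddSubmonoid.subset_closure (by simp)
    have hc : c ∈ AddSubmonoid.closure ({a, b, c} : Set ℕ) := AddSubmonoid.subset_closure (by simp)
    have e1 : a * i + b * j + c * k = i • a + j • b + k • c := by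
      simp only [smul_eq_mul]
      ring
    rw [e1]
    exact add_mem (add_mem (AddSubmonoid.nsmul_mem _ ha i) (AddSubmonoid.nsmul_mem _ hb j))
      (AddSubmonoid.nsmul_mem _ hc k)

private theorem primes_closure2 (a b n : ℕ) (B : Finset ℕ) (hB : B ⊆ {a, b})
    (hn : n ∈ AddSubmonoid.closure (B : Set ℕ)) : Gen2 a b n := by
  let M : AddSubmonoid ℕ :=
    { carrier := {n | Gen2 a b n}
      zero_mem' := ⟨0, 0, by simp⟩
      add_mem' := by
        rintro x y ⟨i, j, hx⟩ ⟨i', j', hy⟩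
        exact ⟨i + i', j + j', by rw [hx, hy]; ring⟩ }
  have : AddSubmonoid.closure (B : Set ℕ) ≤ M := by
    rw [AddSubmonoid.closure_le]
    intro x hx
    have h := hB hx
    rw [Finset.mem_insert, Finset.mem_singleton] at h
    rcases h with rfl | rfl
    · exact ⟨1, 0, by simp⟩
    · exact ⟨0, 1, by simp⟩
  exact this hn

theorem emb (a b c : ℕ) (hg : Nat.gcd (Nat.gcd a b) c = 1)
    (h1 : ¬ Gen2 b c a) (h2 : ¬ Gen2 a c b) (h3 : ¬ Gen2 a b c) :
    IsNS {n | Gen a b c n} ∧ ∃ A : Finset ℕ, IsMinGen A {n | Gen a b c n} ∧ A.card = 3 := by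
  have hcl := primes_closure a b c
  have hab : a ≠ b := by
    rintro rfl
    exact h1 ⟨1, 0, by simp⟩
  have hac : a ≠ c := by
    rintro rfl
    exact h1 ⟨0, 1, by simp⟩
  have hbc : b ≠ c := by
    rintro rfl
    exact h2 ⟨0, 1, by simp⟩
  have ga : a ∈ {n | Gen a b c n} := ⟨1, 0, 0, by simp⟩
  have gb : b ∈ {n | Gen a b c n} := ⟨0, 1, 0, by simp⟩
  have gc : c ∈ {n | Gen a b c n} := ⟨0, 0, 1, by simp⟩
  refine ⟨⟨⟨0, 0, 0, by simp⟩, ?_, ?_⟩, {a, b, c}, ⟨?_, ?_⟩, ?_⟩
  · rintro x ⟨i, j, k, hx⟩ y ⟨i', j', k', hy⟩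
    exact ⟨i + i', j + j', k + k', by rw [hx, hy]; ring⟩
  · have hs : Nat.setGcd ({a, b, c} : Set ℕ) = 1 := by
      have d : ∀ x ∈ ({a, b, c} : Set ℕ), Nat.setGcd ({a, b, c} : Set ℕ) ∣ x := fun x hx =>
        Nat.setGcd_dvd_of_mem hx
      have : Nat.setGcd ({a, b, c} : Set ℕ) ∣ 1 := by
        rw [← hg]
        exact Nat.dvd_gcd (Nat.dvd_gcd (d a (by simp)) (d b (by simp))) (d c (by simp))
      exact Nat.dvd_one.1 this
    obtain ⟨n, hn⟩ := Nat.exists_mem_closure_of_ge ({a, b, c} : Set ℕ)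
    refine (Set.finite_lt_nat n).subset ?_
    intro m hm
    by_contra hmn
    apply hm
    rw [← hcl]
    refine hn m (not_lt.1 hmn) ?_
    rw [hs]
    exact one_dvd m
  · rw [← hcl]
    simp
  · intro B hB heq
    rw [Finset.ssubset_iff_subset_ne] at hB
    obtain ⟨hB1, hB2⟩ := hB
    have hx : ∃ x ∈ ({a, b, c} : Finset ℕ), x ∉ B := by
      by_contra hcon
      push Not at hcon
      exact hB2 (Finset.Subset.antisymm hB1 hcon)
    obtain ⟨x, hx1, hx2⟩ := hx
    rw [Finset.mem_insert, Finset.mem_insert, Finset.mem_singleton] at hx1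
    have hsub : ∀ y ∈ B, (y = a ∨ y = b ∨ y = c) ∧ y ≠ x := by
      intro y hy
      have := hB1 hy
      rw [Finset.mem_insert, Finset.mem_insert, Finset.mem_singleton] at this
      exact ⟨this, fun h => hx2 (h ▸ hy)⟩
    rcases hx1 with rfl | rfl | rfl
    · have hm : x ∈ AddSubmonoid.closure (B : Set ℕ) := by
        rw [← SetLike.mem_coe, heq]
        exact ga
      refine h1 (primes_closure2 _ _ _ B ?_ hm)
      intro y hy
      obtain ⟨h4, h5⟩ := hsub y hy
      rw [Finset.mem_insert, Finset.mem_singleton]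
      tauto
    · have hm : x ∈ AddSubmonoid.closure (B : Set ℕ) := by
        rw [← SetLike.mem_coe, heq]
        exact gb
      refine h2 (primes_closure2 _ _ _ B ?_ hm)
      intro y hy
      obtain ⟨h4, h5⟩ := hsub y hy
      rw [Finset.mem_insert, Finset.mem_singleton]
      tauto
    · have hm : x ∈ AddSubmonoid.closure (B : Set ℕ) := by
        rw [← SetLike.mem_coe, heq]
        exact gc
      refine h3 (primes_closure2 _ _ _ B ?_ hm)
      intro y hy
      obtain ⟨h4, h5⟩ := hsub y hy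
      rw [Finset.mem_insert, Finset.mem_singleton]
      tauto
  · rw [Finset.card_insert_of_notMem, Finset.card_pair hbc]
    simp [hab, hac]

end Pool.Agent.Qdec
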