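import Pool.Agent.Qdec.Def
import Pool.Agent.Qdec.Lp

/-!
# Small forms with the same sign pattern (helper60)  (module)

COMPLETE PAPER PROOF.  Apply `lp 7 (16 * N)` to
`Y = ![A 0 / w 0, B 0 / w 0, A 1 / w 1, B 1 / w 1, A 2 / w 2, B 2 / w 2, 1]` (rational numbers).  It gives `z : Fin 7 → ℤ`,
`|z i| ≤ 5040 (16 N)^7`.  Put `a = ![z 0, z 2, z 4]`, `b = ![z 1, z 3, z 5]`, `D = z 6`.  Each field of
`Fr N P a b (fun _ => D)` follows from one instance of the last part of `lp` with a vector `r` of the form (all entries are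
bounded by `16 N`, because `|x| ≤ N`, `|t| ≤ 7 x ≤ 7 N`, `|m| ≤ 16 x ≤ 16 N` in the box, `1 ≤ N`):
* `wpos`: `r = e_6`.
* `pos` for `i`: `r = sg i • (x e_(2i) + t e_(2i+1) - m e_6)`; `r · Y = val A B w i x t m / w i > 0` and
`r · z = val a b D i x t m`.  (`fin_cases i`, three cases; `Fin.sum_univ_seven` or `simp [Fin.sum_univ_succ]`.)
* `neg` for `i`: the negative of this vector.
* `absA`: `r = 2 e_6 - e_0` and `r = 2 e_6 + e_0`; `absB`: `2 e_6 ∓ e_1`.
* `right`: `r = e_4 + 7 e_5 - e_0 - 7 e_1` (then `(a 0 + 7 b 0) < (a 2 + 7 b 2)`, multiply by `D > 0`); `left`: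
`r = e_2 - 7 e_3 - e_0 + 7 e_1`.
-/

set_option autoImplicit false

namespace Pool.Agent.Qdec

private theorem key7 (N : ℕ) (hN : 1 ≤ N) (y0 y1 y2 y3 y4 y5 : ℚ) :
    ∃ z : Fin 7 → ℤ, (∀ i, |z i| ≤ HH N) ∧
      ∀ r0 r1 r2 r3 r4 r5 r6 : ℤ, |r0| ≤ 16 * N → |r1| ≤ 16 * N → |r2| ≤ 16 * N → |r3| ≤ 16 * N →
        |r4| ≤ 16 * N → |r5| ≤ 16 * N → |r6| ≤ 16 * N →
        0 < (r0 : ℚ) * y0 + r1 * y1 + r2 * y2 + r3 * y3 + r4 * y4 + r5 * y5 + r6 →
        0 < r0 * z 0 + r1 * z 1 + r2 * z 2 + r3 * z 3 + r4 * z 4 + r5 * z 5 + r6 * z 6 := by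
  obtain ⟨z, hz, hr⟩ := lp 7 (16 * N) (by omega) ![y0, y1, y2, y3, y4, y5, 1]
  refine ⟨z, ?_, ?_⟩
  · intro i
    have h1 := hz i
    have h2 : ((Nat.factorial 7 : ℕ) : ℤ) = 5040 := by norm_num [Nat.factorial]
    rw [h2] at h1
    unfold HH
    push_cast at h1
    exact h1
  · intro r0 r1 r2 r3 r4 r5 r6 h0 h1 h2 h3 h4 h5 h6 hpos
    have hN16 : (((16 * N : ℕ) : ℤ)) = 16 * N := by push_cast; ring
    have h := hr ![r0, r1, r2, r3, r4, r5, r6] (by
      intro i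
      rw [hN16]
      fin_cases i
      · exact h0
      · exact h1
      · exact h2
      · exact h3
      · exact h4
      · exact h5
      · exact h6) (by
      simp [Fin.sum_univ_succ]
      linarith)
    simp [Fin.sum_univ_succ] at h
    have h' : 0 < r0 * z 0 + (r1 * z 1 + (r2 * z 2 + (r3 * z 3 + (r4 * z 4 + (r5 * z 5 + r6 * z 6))))) := h
    linarith

theorem small (N : ℕ) (hN : 1 ≤ N) (P : Fin 3 → ℤ → ℤ → ℤ → Prop) (A B w : Fin 3 → ℤ)
    (h : Fr N P A B w) :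
    ∃ (a b : Fin 3 → ℤ) (D : ℤ), Fr N P a b (fun _ => D) ∧ D ≤ HH N ∧ (∀ i, |a i| ≤ HH N) ∧
      ∀ i, |b i| ≤ HH N := by
  have w0 : (0 : ℚ) < w 0 := by exact_mod_cast h.wpos 0
  have w1 : (0 : ℚ) < w 1 := by exact_mod_cast h.wpos 1
  have w2 : (0 : ℚ) < w 2 := by exact_mod_cast h.wpos 2
  obtain ⟨z, hz, hr⟩ := key7 N hN (A 0 / w 0) (B 0 / w 0) (A 1 / w 1) (B 1 / w 1) (A 2 / w 2) (B 2 / w 2)
  have hN' : (1 : ℤ) ≤ N := by exact_mod_cast hN
  have hD : 0 < z 6 := by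
    have := hr 0 0 0 0 0 0 1 (by simp) (by simp) (by simp) (by simp) (by simp) (by simp)
      (by rw [abs_one]; linarith) (by simp)
    simpa using this
  -- the values
  have hbox : ∀ x t m : ℤ, InBox N x t m → |x| ≤ 16 * N ∧ |t| ≤ 16 * N ∧ |m| ≤ 16 * N := by
    intro x t m hb
    obtain ⟨h1, h2, h3, h4⟩ := hb
    refine ⟨?_, ?_, ?_⟩
    · rw [abs_of_pos (by linarith)]; linarith
    · linarith
    · linarith
  have hz0 : |(0 : ℤ)| ≤ 16 * N := by simp
  have c0 : ∀ s x t m : ℤ, InBox N x t m → (s = 1 ∨ s = -1) →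
      0 < s * (A 0 * x + B 0 * t - w 0 * m) → 0 < s * (z 0 * x + z 1 * t - z 6 * m) := by
    intro s x t m hb hs hp
    obtain ⟨hx, ht, hm⟩ := hbox x t m hb
    have habs : ∀ y : ℤ, |y| ≤ 16 * N → |s * y| ≤ 16 * N := by
      intro y hy
      rcases hs with rfl | rfl
      · simpa using hy
      · simpa using hy
    have := hr (s * x) (s * t) 0 0 0 0 (s * (-m)) (habs x hx) (habs t ht) hz0 hz0 hz0 hz0
      (habs (-m) (by rwa [abs_neg])) (by
        have hp' : (0 : ℚ) < s * (A 0 * x + B 0 * t - w 0 * m) := by exact_mod_cast hp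
        have e : ((s * x : ℤ) : ℚ) * (A 0 / w 0) + ((s * t : ℤ) : ℚ) * (B 0 / w 0) + ((0 : ℤ) : ℚ) * (A 1 / w 1)
            + ((0 : ℤ) : ℚ) * (B 1 / w 1) + ((0 : ℤ) : ℚ) * (A 2 / w 2) + ((0 : ℤ) : ℚ) * (B 2 / w 2)
            + ((s * (-m) : ℤ) : ℚ) = s * (A 0 * x + B 0 * t - w 0 * m) / w 0 := by
          push_cast
          field_simp
          ring
        rw [e]
        exact div_pos hp' w0)
    linarith
  have c1 : ∀ s x t m : ℤ, InBox N x t m → (s = 1 ∨ s = -1) →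
      0 < s * (A 1 * x + B 1 * t - w 1 * m) → 0 < s * (z 2 * x + z 3 * t - z 6 * m) := by
    intro s x t m hb hs hp
    obtain ⟨hx, ht, hm⟩ := hbox x t m hb
    have habs : ∀ y : ℤ, |y| ≤ 16 * N → |s * y| ≤ 16 * N := by
      intro y hy
      rcases hs with rfl | rfl
      · simpa using hy
      · simpa using hy
    have := hr 0 0 (s * x) (s * t) 0 0 (s * (-m)) hz0 hz0 (habs x hx) (habs t ht) hz0 hz0
      (habs (-m) (by rwa [abs_neg])) (by
        have hp' : (0 : ℚ) < s * (A 1 * x + B 1 * t - w 1 * m) := by exact_mod_cast hp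
        have e : ((0 : ℤ) : ℚ) * (A 0 / w 0) + ((0 : ℤ) : ℚ) * (B 0 / w 0) + ((s * x : ℤ) : ℚ) * (A 1 / w 1)
            + ((s * t : ℤ) : ℚ) * (B 1 / w 1) + ((0 : ℤ) : ℚ) * (A 2 / w 2) + ((0 : ℤ) : ℚ) * (B 2 / w 2)
            + ((s * (-m) : ℤ) : ℚ) = s * (A 1 * x + B 1 * t - w 1 * m) / w 1 := by
          push_cast
          field_simp
          ring
        rw [e]
        exact div_pos hp' w1)
    linarith
  have c2 : ∀ s x t m : ℤ, InBox N x t m → (s = 1 ∨ s = -1) →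
      0 < s * (A 2 * x + B 2 * t - w 2 * m) → 0 < s * (z 4 * x + z 5 * t - z 6 * m) := by
    intro s x t m hb hs hp
    obtain ⟨hx, ht, hm⟩ := hbox x t m hb
    have habs : ∀ y : ℤ, |y| ≤ 16 * N → |s * y| ≤ 16 * N := by
      intro y hy
      rcases hs with rfl | rfl
      · simpa using hy
      · simpa using hy
    have := hr 0 0 0 0 (s * x) (s * t) (s * (-m)) hz0 hz0 hz0 hz0 (habs x hx) (habs t ht)
      (habs (-m) (by rwa [abs_neg])) (by
        have hp' : (0 : ℚ) < s * (A 2 * x + B 2 * t - w 2 * m) := by exact_mod_cast hp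
        have e : ((0 : ℤ) : ℚ) * (A 0 / w 0) + ((0 : ℤ) : ℚ) * (B 0 / w 0) + ((0 : ℤ) : ℚ) * (A 1 / w 1)
            + ((0 : ℤ) : ℚ) * (B 1 / w 1) + ((s * x : ℤ) : ℚ) * (A 2 / w 2) + ((s * t : ℤ) : ℚ) * (B 2 / w 2)
            + ((s * (-m) : ℤ) : ℚ) = s * (A 2 * x + B 2 * t - w 2 * m) / w 2 := by
          push_cast
          field_simp
          ring
        rw [e]
        exact div_pos hp' w2)
    linarith
  refine ⟨![z 0, z 2, z 4], ![z 1, z 3, z 5], z 6, ⟨?_, ?_, ?_, ?_, ?_, ?_, ?_⟩, ?_, ?_, ?_⟩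
  · intro i; exact hD
  · intro i x t m hb hP
    have hv := h.pos i x t m hb hP
    fin_cases i
    · have := c0 1 x t m hb (Or.inl rfl) (by simpa [val, sg] using hv)
      simpa [val, sg] using this
    · have := c1 (-1) x t m hb (Or.inr rfl) (by simpa [val, sg] using hv)
      simpa [val, sg] using this
    · have := c2 (-1) x t m hb (Or.inr rfl) (by simpa [val, sg] using hv)
      simpa [val, sg] using this
  · intro i x t m hb hP
    have hv := h.neg i x t m hb hP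
    fin_cases i
    · have hv' : A 0 * x + B 0 * t - w 0 * m < 0 := by simpa [val, sg] using hv
      have := c0 (-1) x t m hb (Or.inr rfl) (by linarith)
      have e : z 0 * x + z 1 * t - z 6 * m < 0 := by linarith
      simpa [val, sg] using e
    · have hv' : -(A 1 * x + B 1 * t - w 1 * m) < 0 := by simpa [val, sg] using hv
      have := c1 1 x t m hb (Or.inl rfl) (by linarith)
      have e : -(z 2 * x + z 3 * t - z 6 * m) < 0 := by linarith
      simpa [val, sg] using e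
    · have hv' : -(A 2 * x + B 2 * t - w 2 * m) < 0 := by simpa [val, sg] using hv
      have := c2 1 x t m hb (Or.inl rfl) (by linarith)
      have e : -(z 4 * x + z 5 * t - z 6 * m) < 0 := by linarith
      simpa [val, sg] using e
  · have hA := h.absA
    rw [abs_lt] at hA
    have hA1 : (-(2 * w 0) : ℚ) < A 0 := by exact_mod_cast hA.1
    have hA2 : (A 0 : ℚ) < 2 * w 0 := by exact_mod_cast hA.2
    have g1 := hr (-1) 0 0 0 0 0 2 (by rw [abs_neg, abs_one]; linarith) hz0 hz0 hz0 hz0 hz0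
      (by rw [abs_two]; linarith) (by
        have e : ((-1 : ℤ) : ℚ) * (A 0 / w 0) + ((0 : ℤ) : ℚ) * (B 0 / w 0) + ((0 : ℤ) : ℚ) * (A 1 / w 1)
            + ((0 : ℤ) : ℚ) * (B 1 / w 1) + ((0 : ℤ) : ℚ) * (A 2 / w 2) + ((0 : ℤ) : ℚ) * (B 2 / w 2)
            + ((2 : ℤ) : ℚ) = (2 * w 0 - A 0) / w 0 := by
          push_cast
          field_simp
          ring
        rw [e]
        exact div_pos (by linarith) w0)
    have g2 := hr 1 0 0 0 0 0 2 (by rw [abs_one]; linarith) hz0 hz0 hz0 hz0 hz0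
      (by rw [abs_two]; linarith) (by
        have e : ((1 : ℤ) : ℚ) * (A 0 / w 0) + ((0 : ℤ) : ℚ) * (B 0 / w 0) + ((0 : ℤ) : ℚ) * (A 1 / w 1)
            + ((0 : ℤ) : ℚ) * (B 1 / w 1) + ((0 : ℤ) : ℚ) * (A 2 / w 2) + ((0 : ℤ) : ℚ) * (B 2 / w 2)
            + ((2 : ℤ) : ℚ) = (2 * w 0 + A 0) / w 0 := by
          push_cast
          field_simp
          ring
        rw [e]
        exact div_pos (by linarith) w0)
    show |z 0| < 2 * z 6
    rw [abs_lt]
    constructor <;> linarith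
  · have hB := h.absB
    rw [abs_lt] at hB
    have hB1 : (-(2 * w 0) : ℚ) < B 0 := by exact_mod_cast hB.1
    have hB2 : (B 0 : ℚ) < 2 * w 0 := by exact_mod_cast hB.2
    have g1 := hr 0 (-1) 0 0 0 0 2 hz0 (by rw [abs_neg, abs_one]; linarith) hz0 hz0 hz0 hz0
      (by rw [abs_two]; linarith) (by
        have e : ((0 : ℤ) : ℚ) * (A 0 / w 0) + ((-1 : ℤ) : ℚ) * (B 0 / w 0) + ((0 : ℤ) : ℚ) * (A 1 / w 1)
            + ((0 : ℤ) : ℚ) * (B 1 / w 1) + ((0 : ℤ) : ℚ) * (A 2 / w 2) + ((0 : ℤ) : ℚ) * (B 2 / w 2)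
            + ((2 : ℤ) : ℚ) = (2 * w 0 - B 0) / w 0 := by
          push_cast
          field_simp
          ring
        rw [e]
        exact div_pos (by linarith) w0)
    have g2 := hr 0 1 0 0 0 0 2 hz0 (by rw [abs_one]; linarith) hz0 hz0 hz0 hz0
      (by rw [abs_two]; linarith) (by
        have e : ((0 : ℤ) : ℚ) * (A 0 / w 0) + ((1 : ℤ) : ℚ) * (B 0 / w 0) + ((0 : ℤ) : ℚ) * (A 1 / w 1)
            + ((0 : ℤ) : ℚ) * (B 1 / w 1) + ((0 : ℤ) : ℚ) * (A 2 / w 2) + ((0 : ℤ) : ℚ) * (B 2 / w 2)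
            + ((2 : ℤ) : ℚ) = (2 * w 0 + B 0) / w 0 := by
          push_cast
          field_simp
          ring
        rw [e]
        exact div_pos (by linarith) w0)
    show |z 1| < 2 * z 6
    rw [abs_lt]
    constructor <;> linarith
  · have hR := h.right
    have hR' : ((A 0 : ℚ) + 7 * B 0) * w 2 < (A 2 + 7 * B 2) * w 0 := by exact_mod_cast hR
    have g := hr (-1) (-7) 0 0 1 7 0 (by rw [abs_neg, abs_one]; linarith)
      (by rw [abs_neg, abs_of_pos (by norm_num)]; linarith) hz0 hz0 (by rw [abs_one]; linarith)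
      (by rw [abs_of_pos (by norm_num)]; linarith) hz0 (by
        have e : ((-1 : ℤ) : ℚ) * (A 0 / w 0) + ((-7 : ℤ) : ℚ) * (B 0 / w 0) + ((0 : ℤ) : ℚ) * (A 1 / w 1)
            + ((0 : ℤ) : ℚ) * (B 1 / w 1) + ((1 : ℤ) : ℚ) * (A 2 / w 2) + ((7 : ℤ) : ℚ) * (B 2 / w 2)
            + ((0 : ℤ) : ℚ) = ((A 2 + 7 * B 2) * w 0 - (A 0 + 7 * B 0) * w 2) / (w 0 * w 2) := by
          push_cast
          field_simp
          ring
        rw [e]
        exact div_pos (by linarith) (mul_pos w0 w2))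
    show (z 0 + 7 * z 1) * z 6 < (z 4 + 7 * z 5) * z 6
    exact mul_lt_mul_of_pos_right (by linarith) hD
  · have hL := h.left
    have hL' : ((A 0 : ℚ) - 7 * B 0) * w 1 < (A 1 - 7 * B 1) * w 0 := by exact_mod_cast hL
    have g := hr (-1) 7 1 (-7) 0 0 0 (by rw [abs_neg, abs_one]; linarith)
      (by rw [abs_of_pos (by norm_num)]; linarith) (by rw [abs_one]; linarith)
      (by rw [abs_neg, abs_of_pos (by norm_num)]; linarith) hz0 hz0 hz0 (by
        have e : ((-1 : ℤ) : ℚ) * (A 0 / w 0) + ((7 : ℤ) : ℚ) * (B 0 / w 0) + ((1 : ℤ) : ℚ) * (A 1 / w 1)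
            + ((-7 : ℤ) : ℚ) * (B 1 / w 1) + ((0 : ℤ) : ℚ) * (A 2 / w 2) + ((0 : ℤ) : ℚ) * (B 2 / w 2)
            + ((0 : ℤ) : ℚ) = ((A 1 - 7 * B 1) * w 0 - (A 0 - 7 * B 0) * w 1) / (w 0 * w 1) := by
          push_cast
          field_simp
          ring
        rw [e]
        exact div_pos (by linarith) (mul_pos w0 w1))
    show (z 0 - 7 * z 1) * z 6 < (z 2 - 7 * z 3) * z 6
    exact mul_lt_mul_of_pos_right (by linarith) hD
  · exact le_trans (le_abs_self _) (hz 6)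
  · intro i
    fin_cases i
    · exact hz 0
    · exact hz 2
    · exact hz 4
  · intro i
    fin_cases i
    · exact hz 1
    · exact hz 3
    · exact hz 5

end Pool.Agent.Qdec
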