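import Pool.Agent.Hhelper28.Quot.Reduce
import Pool.Agent.Qdec.Def

/-!
# A strict realisation of the sign pattern (helper60)  (module)

COMPLETE PAPER PROOF.  Write `φ i (x,t,m) = α i x + β i t + γ i m`, `c = - γ 0 > 0`, and for `j = 1, 2`
`E j = c α j + γ j α 0`, `G j = c β j + γ j β 0`, so that (*) `c φ j + γ j φ 0 = E j x + G j t`.

1. `E j + 7 G j < 0` for some `j ∈ {1,2}`: otherwise take `x = c`, `t = 7 c`, `m = α 0 + 7 β 0`: `φ 0 = 0` and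
`φ j = E j + 7 G j ≥ 0`, so `ht` gives `7 c ≤ 6 c`, a contradiction.  In the same way (`t = -7 c`, `m = α 0 - 7 β 0`)
`E k - 7 G k < 0` for some `k ∈ {1,2}`.
2. `j ≠ k`: let `(x,t,m)` be a lattice point with all `φ ≥ 0` and `x > 0` (`hne`); `|t| ≤ 6 x` by `ht`, and by (*)
`E j x + G j t ≥ 0` for both `j`.  If `j = k` then `7 |G j| < - E j`, so `E j x + G j t ≤ E j x + 6 |G j| x < 0`.
3. If `j = 1`, `k = 2` exchange the indices `1` and `2` of `α, β, γ` (it is convenient to prove the statement first as a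
private lemma with the additional hypotheses `E 2 + 7 G 2 < 0`, `E 1 - 7 G 1 < 0`, and to apply this lemma to
`α ∘ Equiv.swap 1 2` etc. in the other case).  So let `E 2 + 7 G 2 < 0` and `E 1 - 7 G 1 < 0`.
4. For a large integer `K` (e.g. `K = 33 N + 100 + |X| + |X'|`, see below) put
`A 0 = K α 0 + 17`, `B 0 = K β 0`, `w 0 = K c + 1`, and for `j = 1, 2`: `A j = -(K α j + 17)`, `B j = - K β j`,
`w j = K γ j + 1`.  Then `val A B w 0 x t m = K φ 0 + 17 x - m` and `val A B w j x t m = K φ j + 17 x + m`.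
`P i x t m := 0 ≤ φ i (x,t,m)`.
   * `wpos`: clear.  `pos`: `K φ i ≥ 0`, `17 x ∓ m ≥ x > 0` as `|m| ≤ 16 x`.  `neg`: `φ i ≤ -1`, so the value is at most
`-K + 33 x ≤ -K + 33 N < 0`.
   * `absA`: `0 ≤ α 0 ≤ c`, so `K α 0 + 17 ≤ K c + 17 < 2 (K c + 1)` as `K > 15`.  `absB`: `0 ≤ K β 0 ≤ K c`.
   * `right`: `(A 0 + 7 B 0) w 2 - (A 2 + 7 B 2) w 0 = K² (E 2 + 7 G 2) + K X + 34` with
`X = (α 0 + 7 β 0) + 17 γ 2 + (α 2 + 7 β 2) + 17 c`; as `E 2 + 7 G 2 ≤ -1` and `K ≥ |X| + 35` it is negative.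
   * `left`: the same with `E 1 - 7 G 1 ≤ -1` and `X' = (α 0 - 7 β 0) + 17 γ 1 + (α 1 - 7 β 1) + 17 c`.
5. If `1 ≤ x ≤ N` and `Mem α β γ x`, say all `φ i (x,t,m) ≥ 0`, then `|t| ≤ 6 x`; let `m' = (α 0 x + β 0 t) / c` (floor).
`m ≤ m'` because `φ 0 ≥ 0`, so `φ 1, φ 2` do not decrease, and `φ 0 (x,t,m') ≥ 0`.  `|α 0 x + β 0 t| ≤ 7 x c` gives
`|m'| ≤ 7 x` (the same computation is at the end of the proof of `Pool.Hhelper28.Quot.reduce`).  So
`InBox N x t m'` and all `P i x t m'`.  This gives `Good N P` (from `hne`) and one direction of the equivalence; the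
other direction is trivial.
-/

set_option autoImplicit false

namespace Pool.Agent.Qdec

open Pool.Hhelper28.Quot

private lemma all3 {p : Fin 3 → Prop} : (∀ i, p i) ↔ p 0 ∧ p 1 ∧ p 2 := by
  constructor
  · intro h
    exact ⟨h 0, h 1, h 2⟩
  · rintro ⟨a, b, c⟩ i
    fin_cases i
    · exact a
    · exact b
    · exact c

private lemma side_neg (K F X : ℤ) (hF : F ≤ -1) (hK : |X| + 35 ≤ K) : K ^ 2 * F + K * X + 34 < 0 := by
  have h1 : X ≤ |X| := le_abs_self X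
  have h2 : 0 ≤ |X| := abs_nonneg X
  have h3 : 0 < K := by linarith
  have h4 : K ^ 2 * F ≤ -K ^ 2 := by nlinarith [sq_nonneg K]
  have h5 : K * X ≤ K * (K - 35) := mul_le_mul_of_nonneg_left (by linarith) h3.le
  nlinarith

private theorem strict_aux (N : ℕ) (α β γ : Fin 3 → ℤ) (h0 : γ 0 < 0) (h1 : 0 ≤ γ 1) (h2 : 0 ≤ γ 2)
    (ha : 0 ≤ α 0) (ha' : α 0 ≤ -γ 0) (hb : 0 ≤ β 0) (hb' : β 0 ≤ -γ 0)
    (ht : ∀ x t m : ℤ, 0 < x → (∀ i, 0 ≤ α i * x + β i * t + γ i * m) → |t| ≤ 6 * x)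
    (hne : ∃ x : ℤ, 1 ≤ x ∧ x ≤ N ∧ Mem α β γ x)
    (hR : (-γ 0 * α 2 + γ 2 * α 0) + 7 * (-γ 0 * β 2 + γ 2 * β 0) < 0)
    (hL : (-γ 0 * α 1 + γ 1 * α 0) - 7 * (-γ 0 * β 1 + γ 1 * β 0) < 0) :
    ∃ (P : Fin 3 → ℤ → ℤ → ℤ → Prop) (A B w : Fin 3 → ℤ), Fr N P A B w ∧ Good N P ∧
      ∀ x : ℤ, 1 ≤ x → x ≤ N → (Mem α β γ x ↔ ∃ t m, InBox N x t m ∧ ∀ i, P i x t m) := by
  set X : ℤ := (α 0 + 7 * β 0) + 17 * γ 2 + (α 2 + 7 * β 2) + 17 * (-γ 0) with hX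
  set X' : ℤ := (α 0 - 7 * β 0) + 17 * γ 1 + (α 1 - 7 * β 1) + 17 * (-γ 0) with hX'
  set K : ℤ := 33 * N + 100 + |X| + |X'| with hK
  have hXn : 0 ≤ |X| := abs_nonneg _
  have hXn' : 0 ≤ |X'| := abs_nonneg _
  have hNn : (0 : ℤ) ≤ N := Int.natCast_nonneg N
  have hK0 : 33 * (N : ℤ) + 100 ≤ K := by rw [hK]; linarith
  have hKX : |X| + 35 ≤ K := by rw [hK]; linarith
  have hKX' : |X'| + 35 ≤ K := by rw [hK]; linarith
  have hKpos : 0 < K := by linarith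
  -- the floor
  have hfl : ∀ x t m : ℤ, 1 ≤ x → x ≤ N → (∀ i, 0 ≤ α i * x + β i * t + γ i * m) →
      ∃ m', InBox N x t m' ∧ |t| ≤ 6 * x ∧ ∀ i, 0 ≤ α i * x + β i * t + γ i * m' := by
    intro x t m hx hxN hf
    have hx0 : 0 < x := by linarith
    have ht' : |t| ≤ 6 * x := ht x t m hx0 hf
    set c : ℤ := -γ 0 with hc
    have hcpos : 0 < c := by rw [hc]; linarith
    set D : ℤ := α 0 * x + β 0 * t with hD
    have hDabs : |D| ≤ (7 * x) * c := by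
      rw [hD]
      refine (abs_add_le _ _).trans ?_
      rw [abs_mul, abs_mul, abs_of_nonneg ha, abs_of_nonneg hb, abs_of_pos hx0]
      have h3 : α 0 * x ≤ c * x := mul_le_mul_of_nonneg_right ha' hx0.le
      have h4 : β 0 * |t| ≤ c * (6 * x) := mul_le_mul hb' ht' (abs_nonneg t) hcpos.le
      linarith
    have hm7 : |D / c| ≤ 7 * x := by
      rw [abs_le] at hDabs ⊢
      constructor
      · apply Int.le_ediv_of_mul_le hcpos
        linarith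
      · have := Int.ediv_le_ediv hcpos hDabs.2
        rwa [Int.mul_ediv_cancel _ hcpos.ne'] at this
    have hmle : m ≤ D / c := by
      apply Int.le_ediv_of_mul_le hcpos
      have h := hf 0
      have e : m * c = -(γ 0 * m) := by rw [hc]; ring
      rw [e]
      linarith
    refine ⟨D / c, ⟨hx, hxN, ?_, ?_⟩, ht', all3.2 ⟨?_, ?_, ?_⟩⟩
    · linarith
    · linarith
    · have := Int.ediv_mul_le D hcpos.ne'
      have e : γ 0 * (D / c) = -(D / c * c) := by rw [hc]; ring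
      rw [e]
      linarith
    · have h6 := hf 1
      have h7 : γ 1 * m ≤ γ 1 * (D / c) := mul_le_mul_of_nonneg_left hmle h1
      linarith
    · have h6 := hf 2
      have h7 : γ 2 * m ≤ γ 2 * (D / c) := mul_le_mul_of_nonneg_left hmle h2
      linarith
  refine ⟨fun i x t m => 0 ≤ α i * x + β i * t + γ i * m,
    ![K * α 0 + 17, -(K * α 1 + 17), -(K * α 2 + 17)], ![K * β 0, -(K * β 1), -(K * β 2)],
    ![K * (-γ 0) + 1, K * γ 1 + 1, K * γ 2 + 1], ⟨?_, ?_, ?_, ?_, ?_, ?_, ?_⟩, ?_, ?_⟩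
  · refine all3.2 ⟨?_, ?_, ?_⟩
    · show 0 < K * (-γ 0) + 1
      have : 0 ≤ K * (-γ 0) := mul_nonneg hKpos.le (by linarith)
      linarith
    · show 0 < K * γ 1 + 1
      have : 0 ≤ K * γ 1 := mul_nonneg hKpos.le h1
      linarith
    · show 0 < K * γ 2 + 1
      have : 0 ≤ K * γ 2 := mul_nonneg hKpos.le h2
      linarith
  · refine all3.2 ⟨?_, ?_, ?_⟩
    · intro x t m hbox hp
      obtain ⟨hx, hxN, htb, hmb⟩ := hbox
      rw [abs_le] at hmb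
      have hp' : 0 ≤ K * (α 0 * x + β 0 * t + γ 0 * m) := mul_nonneg hKpos.le hp
      show 0 < 1 * ((K * α 0 + 17) * x + K * β 0 * t - (K * (-γ 0) + 1) * m)
      nlinarith
    · intro x t m hbox hp
      obtain ⟨hx, hxN, htb, hmb⟩ := hbox
      rw [abs_le] at hmb
      have hp' : 0 ≤ K * (α 1 * x + β 1 * t + γ 1 * m) := mul_nonneg hKpos.le hp
      show 0 < -1 * (-(K * α 1 + 17) * x + -(K * β 1) * t - (K * γ 1 + 1) * m)
      nlinarith
    · intro x t m hbox hp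
      obtain ⟨hx, hxN, htb, hmb⟩ := hbox
      rw [abs_le] at hmb
      have hp' : 0 ≤ K * (α 2 * x + β 2 * t + γ 2 * m) := mul_nonneg hKpos.le hp
      show 0 < -1 * (-(K * α 2 + 17) * x + -(K * β 2) * t - (K * γ 2 + 1) * m)
      nlinarith
  · refine all3.2 ⟨?_, ?_, ?_⟩
    · intro x t m hbox hp
      obtain ⟨hx, hxN, htb, hmb⟩ := hbox
      rw [abs_le] at hmb
      have hp1 : α 0 * x + β 0 * t + γ 0 * m ≤ -1 := by
        have := not_le.1 hp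
        omega
      have hp' : K * (α 0 * x + β 0 * t + γ 0 * m) ≤ K * (-1) := mul_le_mul_of_nonneg_left hp1 hKpos.le
      show 1 * ((K * α 0 + 17) * x + K * β 0 * t - (K * (-γ 0) + 1) * m) < 0
      nlinarith
    · intro x t m hbox hp
      obtain ⟨hx, hxN, htb, hmb⟩ := hbox
      rw [abs_le] at hmb
      have hp1 : α 1 * x + β 1 * t + γ 1 * m ≤ -1 := by
        have := not_le.1 hp
        omega
      have hp' : K * (α 1 * x + β 1 * t + γ 1 * m) ≤ K * (-1) := mul_le_mul_of_nonneg_left hp1 hKpos.le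
      show -1 * (-(K * α 1 + 17) * x + -(K * β 1) * t - (K * γ 1 + 1) * m) < 0
      nlinarith
    · intro x t m hbox hp
      obtain ⟨hx, hxN, htb, hmb⟩ := hbox
      rw [abs_le] at hmb
      have hp1 : α 2 * x + β 2 * t + γ 2 * m ≤ -1 := by
        have := not_le.1 hp
        omega
      have hp' : K * (α 2 * x + β 2 * t + γ 2 * m) ≤ K * (-1) := mul_le_mul_of_nonneg_left hp1 hKpos.le
      show -1 * (-(K * α 2 + 17) * x + -(K * β 2) * t - (K * γ 2 + 1) * m) < 0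
      nlinarith
  · show |K * α 0 + 17| < 2 * (K * (-γ 0) + 1)
    have e1 : 0 ≤ K * α 0 := mul_nonneg hKpos.le ha
    have e2 : K * α 0 ≤ K * (-γ 0) := mul_le_mul_of_nonneg_left ha' hKpos.le
    have e3 : K * 1 ≤ K * (-γ 0) := mul_le_mul_of_nonneg_left (by linarith) hKpos.le
    rw [abs_of_nonneg (by linarith)]
    linarith
  · show |K * β 0| < 2 * (K * (-γ 0) + 1)
    have e1 : 0 ≤ K * β 0 := mul_nonneg hKpos.le hb
    have e2 : K * β 0 ≤ K * (-γ 0) := mul_le_mul_of_nonneg_left hb' hKpos.le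
    rw [abs_of_nonneg e1]
    linarith
  · show (K * α 0 + 17 + 7 * (K * β 0)) * (K * γ 2 + 1) <
      (-(K * α 2 + 17) + 7 * -(K * β 2)) * (K * (-γ 0) + 1)
    have h := side_neg K _ X (Int.le_sub_one_of_lt hR) hKX
    have e : (K * α 0 + 17 + 7 * (K * β 0)) * (K * γ 2 + 1) -
      (-(K * α 2 + 17) + 7 * -(K * β 2)) * (K * (-γ 0) + 1) =
      K ^ 2 * ((-γ 0 * α 2 + γ 2 * α 0) + 7 * (-γ 0 * β 2 + γ 2 * β 0)) + K * X + 34 := by
      rw [hX]
      ring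
    linarith
  · show (K * α 0 + 17 - 7 * (K * β 0)) * (K * γ 1 + 1) <
      (-(K * α 1 + 17) - 7 * -(K * β 1)) * (K * (-γ 0) + 1)
    have h := side_neg K _ X' (Int.le_sub_one_of_lt hL) hKX'
    have e : (K * α 0 + 17 - 7 * (K * β 0)) * (K * γ 1 + 1) -
      (-(K * α 1 + 17) - 7 * -(K * β 1)) * (K * (-γ 0) + 1) =
      K ^ 2 * ((-γ 0 * α 1 + γ 1 * α 0) - 7 * (-γ 0 * β 1 + γ 1 * β 0)) + K * X' + 34 := by
      rw [hX']
      ring
    linarith
  · obtain ⟨x, hx, hxN, t, m, hf⟩ := hne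
    obtain ⟨m', hbox, ht', hf'⟩ := hfl x t m hx hxN hf
    exact ⟨x, t, m', hbox, ht', hf'⟩
  · intro x hx hxN
    constructor
    · rintro ⟨t, m, hf⟩
      obtain ⟨m', hbox, -, hf'⟩ := hfl x t m hx hxN hf
      exact ⟨t, m', hbox, hf'⟩
    · rintro ⟨t, m, -, hf⟩
      exact ⟨t, m, hf⟩

theorem strict (N : ℕ) (α β γ : Fin 3 → ℤ) (h0 : γ 0 < 0) (h1 : 0 ≤ γ 1) (h2 : 0 ≤ γ 2)
    (ha : 0 ≤ α 0) (ha' : α 0 ≤ -γ 0) (hb : 0 ≤ β 0) (hb' : β 0 ≤ -γ 0)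
    (ht : ∀ x t m : ℤ, 0 < x → (∀ i, 0 ≤ α i * x + β i * t + γ i * m) → |t| ≤ 6 * x)
    (hne : ∃ x : ℤ, 1 ≤ x ∧ x ≤ N ∧ Mem α β γ x) :
    ∃ (P : Fin 3 → ℤ → ℤ → ℤ → Prop) (A B w : Fin 3 → ℤ), Fr N P A B w ∧ Good N P ∧
      ∀ x : ℤ, 1 ≤ x → x ≤ N → (Mem α β γ x ↔ ∃ t m, InBox N x t m ∧ ∀ i, P i x t m) := by
  -- the quantities E and G
  have hc : 0 < -γ 0 := by linarith
  have key : ∀ (j : Fin 3) (x t m : ℤ),
      -γ 0 * (α j * x + β j * t + γ j * m) + γ j * (α 0 * x + β 0 * t + γ 0 * m) =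
        (-γ 0 * α j + γ j * α 0) * x + (-γ 0 * β j + γ j * β 0) * t := by
    intro j x t m
    ring
  have hplus : (-γ 0 * α 1 + γ 1 * α 0) + 7 * (-γ 0 * β 1 + γ 1 * β 0) < 0 ∨
      (-γ 0 * α 2 + γ 2 * α 0) + 7 * (-γ 0 * β 2 + γ 2 * β 0) < 0 := by
    by_contra hcon
    push Not at hcon
    obtain ⟨c1, c2⟩ := hcon
    have h := ht (-γ 0) (7 * (-γ 0)) (α 0 + 7 * β 0) hc (all3.2 ⟨by nlinarith, by nlinarith, by nlinarith⟩)
    rw [abs_of_pos (by linarith)] at h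
    linarith
  have hminus : (-γ 0 * α 1 + γ 1 * α 0) - 7 * (-γ 0 * β 1 + γ 1 * β 0) < 0 ∨
      (-γ 0 * α 2 + γ 2 * α 0) - 7 * (-γ 0 * β 2 + γ 2 * β 0) < 0 := by
    by_contra hcon
    push Not at hcon
    obtain ⟨c1, c2⟩ := hcon
    have h := ht (-γ 0) (-(7 * (-γ 0))) (α 0 - 7 * β 0) hc
      (all3.2 ⟨by nlinarith, by nlinarith, by nlinarith⟩)
    rw [abs_neg, abs_of_pos (by linarith)] at h
    linarith
  -- the two indices are different
  have hdiff : ∀ j : Fin 3, 0 ≤ γ j → (-γ 0 * α j + γ j * α 0) + 7 * (-γ 0 * β j + γ j * β 0) < 0 →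
      ¬ (-γ 0 * α j + γ j * α 0) - 7 * (-γ 0 * β j + γ j * β 0) < 0 := by
    intro j hγj e1 e2
    obtain ⟨x, hx, -, t, m, hf⟩ := hne
    have hx0 : 0 < x := by linarith
    have ht' := ht x t m hx0 hf
    have e3 := key j x t m
    have e4 : 0 ≤ (-γ 0 * α j + γ j * α 0) * x + (-γ 0 * β j + γ j * β 0) * t := by
      rw [← e3]
      exact add_nonneg (mul_nonneg hc.le (hf j)) (mul_nonneg hγj (hf 0))
    set E := -γ 0 * α j + γ j * α 0 with hE
    set G := -γ 0 * β j + γ j * β 0 with hG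
    have e5 : 7 * |G| < -E := by
      rcases abs_cases G with ⟨h, _⟩ | ⟨h, _⟩ <;> rw [h] <;> linarith
    have e6 : G * t ≤ |G| * (6 * x) := by
      calc G * t ≤ |G * t| := le_abs_self _
        _ = |G| * |t| := abs_mul _ _
        _ ≤ |G| * (6 * x) := mul_le_mul_of_nonneg_left ht' (abs_nonneg _)
    have e7 : 0 ≤ |G| := abs_nonneg _
    have e8 : 7 * |G| * x < -E * x := mul_lt_mul_of_pos_right e5 hx0
    nlinarith
  by_cases h22 : (-γ 0 * α 2 + γ 2 * α 0) + 7 * (-γ 0 * β 2 + γ 2 * β 0) < 0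
  · have h12 : (-γ 0 * α 1 + γ 1 * α 0) - 7 * (-γ 0 * β 1 + γ 1 * β 0) < 0 := by
      rcases hminus with h | h
      · exact h
      · exact absurd h (hdiff 2 h2 h22)
    exact strict_aux N α β γ h0 h1 h2 ha ha' hb hb' ht hne h22 h12
  · have h11 : (-γ 0 * α 1 + γ 1 * α 0) + 7 * (-γ 0 * β 1 + γ 1 * β 0) < 0 := by
      rcases hplus with h | h
      · exact h
      · exact absurd h h22
    have h21 : (-γ 0 * α 2 + γ 2 * α 0) - 7 * (-γ 0 * β 2 + γ 2 * β 0) < 0 := by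
      rcases hminus with h | h
      · exact absurd h (hdiff 1 h1 h11)
      · exact h
    have hsw : ∀ x t m : ℤ, (∀ i, 0 ≤ ![α 0, α 2, α 1] i * x + ![β 0, β 2, β 1] i * t + ![γ 0, γ 2, γ 1] i * m) ↔
        ∀ i, 0 ≤ α i * x + β i * t + γ i * m := by
      intro x t m
      rw [all3, all3]
      constructor
      · rintro ⟨a1, a2, a3⟩
        exact ⟨a1, a3, a2⟩
      · rintro ⟨a1, a2, a3⟩
        exact ⟨a1, a3, a2⟩
    have hmem : ∀ x, Mem ![α 0, α 2, α 1] ![β 0, β 2, β 1] ![γ 0, γ 2, γ 1] x ↔ Mem α β γ x := by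
      intro x
      unfold Mem
      constructor
      · rintro ⟨t, m, hf⟩
        exact ⟨t, m, (hsw x t m).1 hf⟩
      · rintro ⟨t, m, hf⟩
        exact ⟨t, m, (hsw x t m).2 hf⟩
    obtain ⟨P, A, B, w, hFr, hG, hM⟩ := strict_aux N ![α 0, α 2, α 1] ![β 0, β 2, β 1] ![γ 0, γ 2, γ 1]
      h0 h2 h1 ha ha' hb hb' (fun x t m hx hf => ht x t m hx ((hsw x t m).1 hf))
      (by
        obtain ⟨x, hx, hxN, hm⟩ := hne
        exact ⟨x, hx, hxN, (hmem x).2 hm⟩) h11 h21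
    exact ⟨P, A, B, w, hFr, hG, fun x hx hxN => by rw [← hmem x]; exact hM x hx hxN⟩

end Pool.Agent.Qdec
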