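import Pool.Agent.Hhelper28.Quot.Class
import Pool.Agent.Qdec.Def
import Pool.Agent.Qdec.Inner
import Pool.Agent.Qdec.Strict
import Pool.Agent.Qdec.Small
import Pool.Agent.Qdec.Close
import Pool.Agent.Qdec.Construct
import Pool.Agent.Qdec.Lattice
import Pool.Agent.Qdec.Primes
import Pool.Agent.Qdec.Comp

/-!
# The finite criterion (helper60)
-/

set_option autoImplicit false

namespace Pool.Agent.Qdec

open Pool.Hhelper28.Quot (Mem IsQ3 data_of_quotient)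

/-- the set of all `x` with `p x` in the semigroup contains everything above `n`, so it is determined by `[0, 2n+1]`. -/
theorem determined (n : ℕ) (S S' : Set ℕ) (hn : ∀ x, n < x → x ∈ S)
    (h' : ∀ x ∈ S', ∀ y ∈ S', x + y ∈ S') (hx : ∀ x ≤ 2 * n + 1, (x ∈ S ↔ x ∈ S')) : S = S' := by
  have key : ∀ x, n < x → x ∈ S' := by
    intro x
    induction x using Nat.strong_induction_on with
    | _ x ih =>
      intro hnx
      by_cases hle : x ≤ 2 * n + 1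
      · exact (hx x hle).1 (hn x hnx)
      · have h1 : x = (x - (n + 1)) + (n + 1) := by omega
        rw [h1]
        apply h'
        · exact ih _ (by omega) (by omega)
        · exact (hx (n + 1) (by omega)).1 (hn _ (by omega))
  ext x
  by_cases hle : x ≤ 2 * n + 1
  · exact hx x hle
  · exact ⟨fun _ => key x (by omega), fun _ => hn x (by omega)⟩

/-- the search bound. -/
def bd (n : ℕ) : ℕ := (200 * n) ^ 215

/-- the finite check for a set. -/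
def Crit (n : ℕ) (S : Set ℕ) : Prop :=
  ∃ a b c p : ℕ, 0 < a ∧ 0 < b ∧ 0 < c ∧ 0 < p ∧ a ≤ bd n ∧ b ≤ bd n ∧ c ≤ bd n ∧ p ≤ bd n ∧
    Nat.gcd (Nat.gcd a b) c = 1 ∧ ¬ Gen2 b c a ∧ ¬ Gen2 a c b ∧ ¬ Gen2 a b c ∧
    ∀ x ≤ 2 * n + 1, (x ∈ S ↔ Gen a b c (p * x))

theorem crit_isQ (n : ℕ) (S : Set ℕ) (hn : ∀ x, n < x → x ∈ S) (h : Crit n S) :
    IsQ S := by
  obtain ⟨a, b, c, p, -, -, -, hp, -, -, -, -, hg, h1, h2, h3, hx⟩ := h
  obtain ⟨hT, A, hA, hA3⟩ := emb a b c hg h1 h2 h3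
  refine ⟨{m | Gen a b c m}, A, p, hT, hA, hA3, hp, ?_⟩
  apply determined n S {x | p * x ∈ {m | Gen a b c m}} hn
  · intro x hx' y hy'
    have := hT.2.1 _ hx' _ hy'
    show p * (x + y) ∈ {m | Gen a b c m}
    rw [mul_add]
    exact this
  · exact hx

theorem isQ_three (S : Set ℕ) (h : IsQ S) : IsQ3 S := by
  obtain ⟨T, A, p, hT, hA, hA3, hp, hS⟩ := h
  exact ⟨T, A, p, hT, hA3.le, hA.1, hp, hS⟩

private lemma crit_univ (n : ℕ) (h1 : 1 ≤ n) : Crit n Set.univ := by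
  have hbd : 5 ≤ bd n := by
    unfold bd
    calc 5 ≤ 200 * n := by omega
      _ ≤ (200 * n) ^ 215 := Nat.le_self_pow (by norm_num) _
  refine ⟨3, 4, 5, 3, by norm_num, by norm_num, by norm_num, by norm_num, by omega, by omega,
    by omega, by omega, by decide, ?_, ?_, ?_, ?_⟩
  · rintro ⟨i, j, h⟩
    omega
  · rintro ⟨i, j, h⟩
    omega
  · rintro ⟨i, j, h⟩
    omega
  · intro x _
    refine ⟨fun _ => ⟨x, 0, 0, by ring⟩, fun _ => Set.mem_univ _⟩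

private lemma num_bound (n : ℕ) :
    64 * (8 * (5040 * (48 * n) ^ 7) ^ 7 * (50 * n) ^ 3) ^ 3 *
      (20 * (5040 * (48 * n) ^ 7) ^ 8 * (50 * n) ^ 3) ≤ bd n := by
  have e1 : 64 * (8 * (5040 * (48 * n) ^ 7) ^ 7 * (50 * n) ^ 3) ^ 3 *
      (20 * (5040 * (48 * n) ^ 7) ^ 8 * (50 * n) ^ 3) =
      (655360 * 5040 ^ 29 * 48 ^ 203 * 50 ^ 12) * n ^ 215 := by ring
  rw [e1]
  unfold bd
  rw [mul_pow]
  apply Nat.mul_le_mul_right
  norm_num

private lemma num_bound2 (n : ℕ) (h1 : 1 ≤ n) :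
    32 * (8 * (5040 * (48 * n) ^ 7) ^ 7 * (50 * n) ^ 3) ^ 3 ≤ bd n := by
  refine le_trans ?_ (num_bound n)
  have h2 : 1 ≤ 20 * (5040 * (48 * n) ^ 7) ^ 8 * (50 * n) ^ 3 := by
    have : 0 < n := h1
    have : 0 < 20 * (5040 * (48 * n) ^ 7) ^ 8 * (50 * n) ^ 3 := by positivity
    omega
  calc 32 * (8 * (5040 * (48 * n) ^ 7) ^ 7 * (50 * n) ^ 3) ^ 3
      ≤ 64 * (8 * (5040 * (48 * n) ^ 7) ^ 7 * (50 * n) ^ 3) ^ 3 := Nat.mul_le_mul_right _ (by norm_num)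
    _ = 64 * (8 * (5040 * (48 * n) ^ 7) ^ 7 * (50 * n) ^ 3) ^ 3 * 1 := (mul_one _).symm
    _ ≤ _ := Nat.mul_le_mul_left _ h2

theorem data_crit (n : ℕ) (h1 : 1 ≤ n) (S : Set ℕ) (hS : IsNS S) (hn : ∀ x, n < x → x ∈ S)
    (α β γ : Fin 3 → ℤ) (hβ : ∑ i, β i = 0) (hγ : ∑ i, γ i = 0) (hδ : β 0 * γ 1 - β 1 * γ 0 ≠ 0)
    (hmem : ∀ x : ℕ, x ∈ S ↔ Mem α β γ x) : Crit n S := by
  by_cases hone : (1 : ℕ) ∈ S
  · have hu : S = Set.univ := by
      ext x
      simp only [Set.mem_univ, iff_true]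
      induction x with
      | zero => exact hS.1
      | succ x ih => exact hS.2.1 x ih 1 hone
    rw [hu]
    exact crit_univ n h1
  have h1' : ¬ Mem α β γ 1 := by
    intro h
    apply hone
    rw [hmem]
    exact_mod_cast h
  obtain ⟨α', β', γ', i0, i1, i2, ia, ia', ib, ib', hmem', ht⟩ := inner α β γ hβ hγ hδ h1'
  obtain ⟨P, A, B, w, hFr, hGood, hP⟩ := strict (2 * n + 1) α' β' γ' i0 i1 i2 ia ia' ib ib' ht
    ⟨(n : ℤ) + 1, by omega, by push_cast; omega, by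
      rw [hmem']
      have := (hmem (n + 1)).1 (hn (n + 1) (by omega))
      exact_mod_cast this⟩
  have hN : 1 ≤ 2 * n + 1 := by omega
  obtain ⟨a, b, D, hab, hD, ha, hb⟩ := small (2 * n + 1) hN P A B w hFr
  obtain ⟨-, -, s2, -⟩ := slopes (2 * n + 1) P a b (fun _ => D) hab hGood
  have hDpos : 0 < D := hab.wpos 0
  have hb01 : b 1 < b 0 := by
    unfold u2 at s2
    have : (b 0 - b 1) * D > 0 := by linarith
    have := (mul_pos_iff_of_pos_right hDpos).1 this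
    linarith
  set H : ℤ := ((5040 * (48 * n) ^ 7 : ℕ) : ℤ) with hH
  have hHH : HH (2 * n + 1) ≤ H := by
    unfold HH
    rw [hH]
    push_cast
    have : (16 * (2 * (n : ℤ) + 1)) ≤ 48 * n := by
      have : (1 : ℤ) ≤ n := by exact_mod_cast h1
      linarith
    gcongr
  obtain ⟨A', B', w', hw', hA', hB', hcop, v0, v1, v2, vp⟩ :=
    construct (16 * ((2 * n + 1 : ℕ) : ℤ)) D H (by push_cast; linarith) hDpos a b hb01
      (hD.trans hHH) (fun i => (ha i).trans hHH) (fun i => (hb i).trans hHH)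
  have hFr' : Fr (2 * n + 1) P A' B' w' := close (2 * n + 1) hN P a b D hab A' B' w' hw' hA' hB'
  obtain ⟨t0, t1, t2, tp⟩ := slopes (2 * n + 1) P A' B' w' hFr' hGood
  -- the numbers
  obtain ⟨ua, hua⟩ := Int.eq_ofNat_of_zero_le t0.le
  obtain ⟨ub, hub⟩ := Int.eq_ofNat_of_zero_le t1.le
  obtain ⟨uc, huc⟩ := Int.eq_ofNat_of_zero_le t2.le
  obtain ⟨up, hup⟩ := Int.eq_ofNat_of_zero_le tp.le
  have hL : (16 * ((2 * n + 1 : ℕ) : ℤ)) + 2 ≤ 50 * n := by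
    have : (1 : ℤ) ≤ n := by exact_mod_cast h1
    push_cast
    linarith
  have hL0 : 0 ≤ (16 * ((2 * n + 1 : ℕ) : ℤ)) + 2 := by positivity
  have hH0 : 0 ≤ H := by rw [hH]; positivity
  set U : ℕ := 8 * (5040 * (48 * n) ^ 7) ^ 7 * (50 * n) ^ 3 with hU
  have hUz : 8 * H ^ 7 * ((16 * ((2 * n + 1 : ℕ) : ℤ)) + 2) ^ 3 ≤ U := by
    rw [hU, hH]
    push_cast
    push_cast at hL hL0
    gcongr
  have hQz : 20 * H ^ 8 * ((16 * ((2 * n + 1 : ℕ) : ℤ)) + 2) ^ 3 ≤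
      ((20 * (5040 * (48 * n) ^ 7) ^ 8 * (50 * n) ^ 3 : ℕ) : ℤ) := by
    rw [hH]
    push_cast
    push_cast at hL hL0
    gcongr
  have ha0 : 0 < ua := by rw [hua] at t0; exact_mod_cast t0
  have hb0 : 0 < ub := by rw [hub] at t1; exact_mod_cast t1
  have hc0 : 0 < uc := by rw [huc] at t2; exact_mod_cast t2
  have hp0 : 0 < up := by rw [hup] at tp; exact_mod_cast tp
  have haU : ua ≤ U := by
    have := v0.trans hUz
    rw [hua, abs_of_nonneg (Int.natCast_nonneg _)] at this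
    exact_mod_cast this
  have hbU : ub ≤ U := by
    have := v1.trans hUz
    rw [hub, abs_of_nonneg (Int.natCast_nonneg _)] at this
    exact_mod_cast this
  have hcU : uc ≤ U := by
    have := v2.trans hUz
    rw [huc, abs_of_nonneg (Int.natCast_nonneg _)] at this
    exact_mod_cast this
  have hpU : up ≤ 20 * (5040 * (48 * n) ^ 7) ^ 8 * (50 * n) ^ 3 := by
    have := vp.trans hQz
    rw [hup, abs_of_nonneg (Int.natCast_nonneg _)] at this
    exact_mod_cast this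
  have hg : Nat.gcd (Nat.gcd ua ub) uc = 1 := by
    rw [hua, huc, Nat.isCoprime_iff_coprime] at hcop
    have h3 : Nat.gcd (Nat.gcd ua ub) uc ∣ Nat.gcd ua uc :=
      Nat.dvd_gcd ((Nat.gcd_dvd_left _ _).trans (Nat.gcd_dvd_left _ _)) (Nat.gcd_dvd_right _ _)
    rw [hcop] at h3
    exact Nat.dvd_one.1 h3
  obtain ⟨a', b', c', p', pa, pb, pc, ppp, qa, qb, qc, qp, hg', m1, m2, m3, hequiv⟩ :=
    primes ua ub uc up U ha0 hb0 hc0 hp0 haU hbU hcU hg
  have hb1 := num_bound2 n h1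
  refine ⟨a', b', c', p', pa, pb, pc, ppp, qa.trans hb1, qb.trans hb1, qc.trans hb1, ?_, hg', m1, m2,
    m3, ?_⟩
  · refine qp.trans (le_trans ?_ (num_bound n))
    exact Nat.mul_le_mul_left _ hpU
  intro x hx
  rw [hequiv]
  by_cases hx0 : x = 0
  · rw [hx0]
    exact ⟨fun _ => ⟨0, 0, 0, by ring⟩, fun _ => hS.1⟩
  have hx1 : (1 : ℤ) ≤ x := by
    have : 1 ≤ x := Nat.one_le_iff_ne_zero.2 hx0
    exact_mod_cast this
  have hxN : (x : ℤ) ≤ ((2 * n + 1 : ℕ) : ℤ) := by exact_mod_cast hx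
  rw [hmem, ← hmem', hP x hx1 hxN, ← box (2 * n + 1) P A' B' w' hFr' t1 t2 x hx1 hxN,
    quot A' B' w' hcop x, hua, hub, huc, hup]
  constructor
  · rintro ⟨i, j, k, hi, hj, hk, he⟩
    obtain ⟨i, rfl⟩ := Int.eq_ofNat_of_zero_le hi
    obtain ⟨j, rfl⟩ := Int.eq_ofNat_of_zero_le hj
    obtain ⟨k, rfl⟩ := Int.eq_ofNat_of_zero_le hk
    exact ⟨i, j, k, by exact_mod_cast he⟩
  · rintro ⟨i, j, k, he⟩
    exact ⟨i, j, k, Int.natCast_nonneg _, Int.natCast_nonneg _, Int.natCast_nonneg _,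
      by exact_mod_cast he⟩

theorem three_crit (n : ℕ) (h1 : 1 ≤ n) (S : Set ℕ) (hS : IsNS S) (hn : ∀ x, n < x → x ∈ S)
    (h : IsQ3 S) : Crit n S := by
  obtain ⟨α, β, γ, -, hβ, hγ, hδ, hmem⟩ := data_of_quotient h
  exact data_crit n h1 S hS hn α β γ hβ hγ hδ hmem

end Pool.Agent.Qdec
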